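import Pool.Agent.Helper9.Fermat.Stick2

/-! From Frobenius eigenvalues to fractional parts. -/

set_option autoImplicit false

namespace Pool.Agent.Helper9.Fermat

open Finset Polynomial

noncomputable section

variable {F : Type} [Field F] [Fintype F]

theorem prod_map_pow_eq {α M : Type*} [CommMonoid M] (c : M) (s : α → ℕ) (S : Multiset α) :
    (S.map fun x => c ^ s x).prod = c ^ (S.map s).sum := by
  induction S using Multiset.induction_on with
  | empty => simp
  | cons a S ih => rw [Multiset.map_cons, Multiset.prod_cons, ih, Multiset.map_cons,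
      Multiset.sum_cons, pow_add]

theorem mulChar_pow_card (χ : MulChar F ℂ) : χ ^ (Fintype.card F - 1) = 1 := by
  classical
  ext x
  rw [MulChar.pow_apply_coe, ← map_pow, ← Units.val_pow_eq_pow_val, ← Fintype.card_units,
    pow_card_eq_one]
  simp

theorem mulChar_ext_gen {χ χ' : MulChar F ℂ} {γ : Fˣ} (hγ : ∀ x : Fˣ, x ∈ Subgroup.zpowers γ)
    (h : χ γ = χ' γ) : χ = χ' := by
  ext x
  have h1 := hγ x
  rw [← mem_powers_iff_mem_zpowers] at h1
  obtain ⟨k, hk⟩ := h1
  rw [← hk]
  push_cast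
  rw [map_pow, map_pow, h]

theorem primitive_value {χ : MulChar F ℂ} {m : ℕ} (hχ : orderOf χ = m) {γ : Fˣ}
    (hγ : ∀ x : Fˣ, x ∈ Subgroup.zpowers γ) : IsPrimitiveRoot (χ γ) m := by
  refine ⟨?_, fun l hl => ?_⟩
  · rw [← MulChar.pow_apply_coe, ← hχ, pow_orderOf_eq_one]
    simp
  · rw [← hχ]
    apply orderOf_dvd_of_pow_eq_one
    apply mulChar_ext_gen hγ
    rw [MulChar.pow_apply_coe, hl]
    simp

theorem stick {p f : ℕ} [Fact p.Prime] [CharP F p] (hF : Fintype.card F = p ^ f) {m : ℕ}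
    [NeZero m] (χ : MulChar F ℂ) (hχ : orderOf χ = m) (ψ : AddChar F ℂ) (hψ : ψ ≠ 1)
    (S : Multiset (ZMod m)) (hS : (0 : ZMod m) ∉ S) {N : ℕ} (hN : 0 < N)
    (hT : ((S.map fun x => gaussSum (χ ^ x.val) ψ).prod) ^ (2 * N) =
      (Fintype.card F : ℂ) ^ (N * S.card)) (t : (ZMod m)ˣ) :
    2 * (S.map fun x => ∑ i ∈ range f, ((p : ZMod m) ^ i * (t * x)).val).sum =
      m * f * S.card := by
  classical
  have hm0 : 0 < m := Nat.pos_of_ne_zero (NeZero.ne m)
  rcases (show m = 1 ∨ 2 ≤ m by omega) with hm1 | hm2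
  · have hS0 : S = 0 := by
      rw [Multiset.eq_zero_iff_forall_notMem]
      intro x hx
      apply hS
      have : Subsingleton (ZMod m) := by rw [hm1]; infer_instance
      rwa [Subsingleton.elim (0 : ZMod m) x]
    rw [hS0]
    simp
  set n := p ^ f - 1 with hn
  have hp2 : 2 ≤ p := (Fact.out : p.Prime).two_le
  have hcard : Fintype.card F - 1 = n := by rw [hF]
  have hq1 : 1 < p ^ f := by
    rw [← hF]
    exact Fintype.one_lt_card
  have hmn : m ∣ n := by
    rw [← hχ, ← hcard]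
    exact orderOf_dvd_of_pow_eq_one (mulChar_pow_card χ)
  have hn0 : 0 < n := by omega
  have hmle : m ≤ n := Nat.le_of_dvd hn0 hmn
  have hq2 : 2 < p ^ f := by omega
  have : NeZero n := ⟨hn0.ne'⟩
  obtain ⟨γ, hγ⟩ := IsCyclic.exists_generator (α := Fˣ)
  obtain ⟨ξ, hξ1, hξ2⟩ := exists_root hmn (primitive_value hχ hγ) t
  obtain ⟨T, hT1⟩ := exists_teich hF hq1 hξ1 hγ
  obtain ⟨d, hd⟩ := hmn
  have hd0 : 0 < d := by
    rcases Nat.eq_zero_or_pos d with h | h
    · rw [h, mul_zero] at hd; omega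
    · exact h
  have hnm : n / m = d := by rw [hd]; exact Nat.mul_div_cancel_left d hm0
  have hχη : χ = T.η ^ (d * (t : ZMod m).val) := by
    apply mulChar_ext_gen hγ
    rw [MulChar.pow_apply_coe, hT1, ← hξ2, hnm]
  have hηn : T.η ^ n = 1 := by rw [← hcard]; exact mulChar_pow_card _
  have hχx : ∀ x : ZMod m, χ ^ x.val = T.η ^ (d * ((t : ZMod m) * x).val) := by
    intro x
    rw [hχη, ← pow_mul, ZMod.val_mul, mul_assoc]
    have h1 : d * ((t : ZMod m).val * x.val) =
        d * ((t : ZMod m).val * x.val % m) + n * ((t : ZMod m).val * x.val / m) := by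
      have h2 := Nat.mod_add_div ((t : ZMod m).val * x.val) m
      rw [hd]
      conv_lhs => rw [← h2]
      ring
    rw [h1, pow_add, pow_mul T.η n, hηn, one_pow, mul_one]
  have hax : ∀ x : ZMod m, d * ((t : ZMod m) * x).val < n := by
    intro x
    rw [hd, mul_comm m d]
    exact Nat.mul_lt_mul_of_pos_left (ZMod.val_lt _) hd0
  choose s hs1 hs2 using fun x : ZMod m => T.w_eq hF hq2 hψ (d * ((t : ZMod m) * x).val) (hax x)
  -- the digit sums
  have hsum : ∀ x : ZMod m, m * s x =
      (p - 1) * ∑ i ∈ range f, ((p : ZMod m) ^ i * (t * x)).val := by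
    intro x
    have h1 := hs2 x
    unfold ds at h1
    have h2 : ∀ i ∈ range f, p ^ i * (d * ((t : ZMod m) * x).val) % (p ^ f - 1) =
        d * ((p : ZMod m) ^ i * (t * x)).val := by
      intro i _
      rw [← hn, hd, mul_comm m d]
      have h3 : p ^ i * (d * ((t : ZMod m) * x).val) = d * (p ^ i * ((t : ZMod m) * x).val) := by
        ring
      rw [h3, Nat.mul_mod_mul_left]
      congr 1
      have h4 : ((p : ZMod m) ^ i * (t * x)) = ((p ^ i * ((t : ZMod m) * x).val : ℕ) : ZMod m) := by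
        push_cast
        rw [ZMod.natCast_zmod_val]
      rw [h4, ZMod.val_natCast]
    rw [sum_congr rfl h2, ← mul_sum, ← hn, hd] at h1
    have h5 : d * ((p - 1) * ∑ i ∈ range f, ((p : ZMod m) ^ i * (t * x)).val) = d * (m * s x) := by
      rw [← mul_assoc d m, mul_comm d m, ← h1]
      ring
    exact (Nat.eq_of_mul_eq_mul_left hd0 h5).symm
  -- the valuation of q
  obtain ⟨s1, ha1, hb1⟩ := T.w_eq hF hq2 hψ 1 (by omega)
  obtain ⟨s2, ha2, hb2⟩ := T.w_eq hF hq2 hψ (p ^ f - 1 - 1) (by omega)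
  have hs12 : s1 + s2 = (p - 1) * f := by
    have h1 := ds_compl (p := p) (f := f) (a := 1) hp2 one_pos (by omega)
    rw [hb1, hb2, ← mul_add] at h1
    have h2 : (p ^ f - 1) * (s1 + s2) = (p ^ f - 1) * ((p - 1) * f) := by rw [h1]; ring
    exact Nat.eq_of_mul_eq_mul_left (by omega) h2
  have hvq : T.V.valuation (Fintype.card F : ℂ) = T.w ψ 1 ^ ((p - 1) * f) := by
    rw [← T.w_compl hψ one_pos (by rw [hcard]; omega), hF, ha2, ← hs12, pow_add, ← ha1]
  have hf0 : f ≠ 0 := by rintro rfl; simp at hq1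
  have hvlt : T.V.valuation (Fintype.card F : ℂ) < 1 := by
    have h1 : ((Fintype.card F : T.A) : ℂ) = (Fintype.card F : ℂ) := by push_cast; rfl
    rw [← h1, T.lt]
    rw [map_natCast, hF]
    push_cast
    rw [CharP.cast_eq_zero F p, zero_pow hf0]
  have hvne : T.V.valuation (Fintype.card F : ℂ) ≠ 0 := by
    rw [Valuation.ne_zero_iff]
    exact Nat.cast_ne_zero.2 Fintype.card_ne_zero
  have hπ0 : T.w ψ 1 ≠ 0 := by
    intro h
    rw [h, zero_pow (Nat.mul_ne_zero (by omega) hf0)] at hvq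
    exact hvne hvq
  have hπ1 : T.w ψ 1 ≠ 1 := by
    intro h
    rw [h, one_pow] at hvq
    exact hvlt.ne hvq
  -- the equation
  have hprod : T.V.valuation ((S.map fun x => gaussSum (χ ^ x.val) ψ).prod) =
      T.w ψ 1 ^ (S.map s).sum := by
    rw [map_multiset_prod, Multiset.map_map]
    have h1 : (T.V.valuation ∘ fun x : ZMod m => gaussSum (χ ^ x.val) ψ) =
        fun x => T.w ψ 1 ^ s x := by
      funext x
      rw [Function.comp_apply, hχx x]
      exact hs1 x
    rw [h1]
    exact prod_map_pow_eq _ _ _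
  have h1 := congrArg T.V.valuation hT
  rw [map_pow, map_pow, hprod, hvq, ← pow_mul, ← pow_mul] at h1
  have h2 : (S.map s).sum * (2 * N) = (p - 1) * f * (N * S.card) :=
    (pow_right_inj₀ (zero_lt_iff.2 hπ0) hπ1).1 h1
  have h3 : 2 * (S.map s).sum = (p - 1) * f * S.card := by
    have : N * (2 * (S.map s).sum) = N * ((p - 1) * f * S.card) := by
      calc N * (2 * (S.map s).sum) = (S.map s).sum * (2 * N) := by ring
        _ = _ := by rw [h2]; ring
    exact Nat.eq_of_mul_eq_mul_left hN this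
  have h4 : m * (S.map s).sum =
      (p - 1) * (S.map fun x => ∑ i ∈ range f, ((p : ZMod m) ^ i * (t * x)).val).sum := by
    rw [← Multiset.sum_map_mul_left, ← Multiset.sum_map_mul_left]
    exact congrArg Multiset.sum (Multiset.map_congr rfl fun x _ => hsum x)
  have h5 : (p - 1) * (2 * (S.map fun x => ∑ i ∈ range f, ((p : ZMod m) ^ i * (t * x)).val).sum) =
      (p - 1) * (m * f * S.card) := by
    calc (p - 1) * (2 * (S.map fun x => ∑ i ∈ range f, ((p : ZMod m) ^ i * (t * x)).val).sum)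
        = 2 * ((p - 1) *
          (S.map fun x => ∑ i ∈ range f, ((p : ZMod m) ^ i * (t * x)).val).sum) := by ring
      _ = m * (2 * (S.map s).sum) := by rw [← h4]; ring
      _ = _ := by rw [h3]; ring
  exact Nat.eq_of_mul_eq_mul_left (by omega) h5

end

end Pool.Agent.Helper9.Fermat
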