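import Pool.Agent.Helper9.Fermat.GenB

/-! Generators of the group attached to the system `Gen`, prime powers and twice prime powers. -/

set_option autoImplicit false

namespace Pool.Agent.Helper9.Fermat

open Finset

noncomputable section

/-! ### the embedding of `ℤ/n` in `ℤ/cn` -/

/-- multiplication by `c` as a map from `ℤ/n` to `ℤ/cn` -/
def io (c n m : ℕ) (y : ZMod n) : ZMod m := ((c * y.val : ℕ) : ZMod m)

section io

variable {c n m : ℕ} [NeZero n] [NeZero m] (hm : m = c * n)

include hm in
theorem c_pos : 0 < c := by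
  rcases Nat.eq_zero_or_pos c with h | h
  · exact absurd (by rw [hm, h, zero_mul] : m = 0) (NeZero.ne m)
  · exact h

include hm in
theorem io_val (y : ZMod n) : (io c n m y).val = c * y.val := by
  rw [io, ZMod.val_natCast, Nat.mod_eq_of_lt]
  rw [hm]
  exact Nat.mul_lt_mul_of_pos_left (ZMod.val_lt y) (c_pos hm)

include hm in
theorem io_cast (a : ℕ) : io c n m (a : ZMod n) = ((c * a : ℕ) : ZMod m) := by
  rw [io, ZMod.natCast_eq_natCast_iff, ZMod.val_natCast, hm]
  exact Nat.ModEq.mul_left' c (Nat.mod_modEq a n)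

include hm in
theorem mul_io (a : ZMod m) (y : ZMod n) :
    a * io c n m y = io c n m (ZMod.castHom (Dvd.intro_left c hm.symm) (ZMod n) a * y) := by
  have h1 : ZMod.castHom (Dvd.intro_left c hm.symm) (ZMod n) a * y =
      ((a.val * y.val : ℕ) : ZMod n) := by
    push_cast
    rw [ZMod.natCast_zmod_val]
    congr 1
    rw [ZMod.castHom_apply, ZMod.natCast_val]
  rw [h1, io_cast hm, io]
  push_cast
  rw [ZMod.natCast_zmod_val]
  ring

include hm in
theorem io_neg (y : ZMod n) : io c n m (-y) = - io c n m y := by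
  have h := mul_io hm (-1) y
  rw [map_neg, map_one, neg_one_mul, neg_one_mul] at h
  exact h.symm

include hm in
theorem io_mul (p : ℕ) (y : ZMod n) : io c n m (p * y) = p * io c n m y := by
  rw [mul_io hm, map_natCast]

include hm in
theorem io_ne_zero {y : ZMod n} (hy : y ≠ 0) : io c n m y ≠ 0 := by
  intro h
  have h1 := io_val hm y
  rw [h, ZMod.val_zero] at h1
  have h2 := c_pos hm
  have h3 : y.val = 0 := by
    rcases Nat.mul_eq_zero.1 h1.symm with h | h
    · omega
    · exact h
  exact hy ((ZMod.val_eq_zero y).1 h3)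

end io

/-! ### the generators -/

/-- the subgroup generated by the primitive classes and the class of `m / 2` -/
def genW (p c n m : ℕ) [NeZero m] : AddSubgroup (QA p m) :=
  AddSubgroup.closure
    (Set.range (fun u : (ZMod n)ˣ => ee p (io c n m (u : ZMod n))) ∪
      {q | 2 ∣ m ∧ q = ee p ((m / 2 : ℕ) : ZMod m)})

section gen

variable {p c n m : ℕ} [NeZero n] [NeZero m]

theorem half_mem (h2 : 2 ∣ m) : ee p ((m / 2 : ℕ) : ZMod m) ∈ genW p c n m :=
  AddSubgroup.subset_closure (Or.inr ⟨h2, rfl⟩)

theorem unit_mem (u : (ZMod n)ˣ) : ee p (io c n m (u : ZMod n)) ∈ genW p c n m :=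
  AddSubgroup.subset_closure (Or.inl ⟨u, rfl⟩)

theorem mem_step {l k : ℕ} (hl : l.Prime) (hn : n = l ^ k) (hm : m = c * n) (j : ℕ) (hj : j < k) :
    ∀ w : ℕ, w.Coprime l → ee p ((c * (l ^ j * w) : ℕ) : ZMod m) ∈ genW p c n m := by
  have hc := c_pos hm
  induction j with
  | zero =>
    intro w hw
    have h1 : w.Coprime n := by
      rw [hn]
      exact Nat.Coprime.pow_right k hw
    have h2 := unit_mem (p := p) (c := c) (m := m) (ZMod.unitOfCoprime w h1)
    rw [ZMod.coe_unitOfCoprime, io_cast hm] at h2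
    rw [pow_zero, one_mul]
    exact h2
  | succ j ih =>
    intro w hw
    have ih' := ih (by omega)
    have hlm : l ∣ m := by
      rw [hm, hn]
      exact Dvd.dvd.mul_left (dvd_pow_self l (by omega)) c
    have hx : ((c * (l ^ (j + 1) * w) : ℕ) : ZMod m) =
        (l : ZMod m) * ((c * (l ^ j * w) : ℕ) : ZMod m) := by
      push_cast
      ring
    have hx0 : (l : ZMod m) * ((c * (l ^ j * w) : ℕ) : ZMod m) ≠ 0 := by
      rw [← hx, Ne, ZMod.natCast_eq_zero_iff, hm, hn]
      intro h
      have h1 : l ^ k ∣ l ^ (j + 1) * w := Nat.dvd_of_mul_dvd_mul_left hc h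
      have h2 : l ^ (j + 1) * l ∣ l ^ (j + 1) * w := by
        rw [← pow_succ]
        exact (pow_dvd_pow l (by omega)).trans h1
      have h3 : l ∣ w := Nat.dvd_of_mul_dvd_mul_left (pow_pos hl.pos _) h2
      exact (Nat.Prime.coprime_iff_not_dvd hl).1 hw.symm h3
    rw [hx, ee_dist hl hlm _ hx0]
    refine AddSubgroup.add_mem _ (AddSubgroup.sum_mem _ ?_) ?_
    · intro z hz
      rw [mem_fib, ← hx] at hz
      have h1 : l * z.val ≡ l * (c * (l ^ j * w)) [MOD l * (c * (l ^ (k - 1)))] := by
        have h2 : l * (c * (l ^ (k - 1))) = m := by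
          rw [hm, hn]
          obtain ⟨k', rfl⟩ : ∃ k', k = k' + 1 := ⟨k - 1, by omega⟩
          rw [Nat.add_sub_cancel, pow_succ]
          ring
        rw [h2, ← ZMod.natCast_eq_natCast_iff]
        push_cast
        rw [ZMod.natCast_zmod_val, hz]
        push_cast
        ring
      have h2 : z.val ≡ c * (l ^ j * w) [MOD c * (l ^ (k - 1))] :=
        Nat.ModEq.mul_left_cancel' hl.ne_zero h1
      have h3 : c * l ^ (k - 1) = (c * l ^ j) * l ^ (k - 1 - j) := by
        rw [mul_assoc, ← pow_add]
        congr 2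
        omega
      rw [h3] at h2
      have h4 : c * l ^ j ∣ z.val := by
        have h5 : z.val ≡ c * (l ^ j * w) [MOD c * l ^ j] := h2.of_mul_right _
        refine (h5.dvd_iff dvd_rfl).2 ?_
        exact ⟨w, by ring⟩
      obtain ⟨w', hw'⟩ := h4
      have h6 : w' ≡ w [MOD l ^ (k - 1 - j)] := by
        refine Nat.ModEq.mul_left_cancel' (c := c * l ^ j)
          (Nat.mul_ne_zero hc.ne' (pow_pos hl.pos _).ne') ?_
        rw [← hw']
        have h7 : c * (l ^ j * w) = c * l ^ j * w := by ring
        rw [h7] at h2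
        exact h2
      have h7 : w' ≡ w [MOD l] := by
        obtain ⟨i, hi⟩ : ∃ i, k - 1 - j = i + 1 := ⟨k - 1 - j - 1, by omega⟩
        rw [hi, pow_succ] at h6
        exact h6.of_mul_left _
      have h8 : w'.Coprime l := by
        have h9 := h7.gcd_eq
        rw [Nat.Coprime] at hw ⊢
        rw [h9, hw]
      have h9 : z = ((c * (l ^ j * w') : ℕ) : ZMod m) := by
        rw [← mul_assoc, ← hw', ZMod.natCast_zmod_val]
      rw [h9]
      exact ih' w' h8
    · by_cases h2 : l = 2
      · rw [if_pos h2]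
        subst h2
        exact half_mem hlm
      · rw [if_neg h2]
        exact AddSubgroup.zero_mem _

theorem mem_even {l k : ℕ} (hl : l.Prime) (hn : n = l ^ k) (hm : m = c * n) (a : ℕ) :
    ee p ((c * a : ℕ) : ZMod m) ∈ genW p c n m := by
  by_cases h0 : ((c * a : ℕ) : ZMod m) = 0
  · rw [h0, ee_zero]
    exact AddSubgroup.zero_mem _
  have ha : a ≠ 0 := by
    rintro rfl
    exact h0 (by simp)
  obtain ⟨j, w, hw, rfl⟩ := Nat.exists_eq_pow_mul_and_not_dvd ha l hl.ne_one
  refine mem_step hl hn hm j ?_ w ((Nat.Prime.coprime_iff_not_dvd hl).2 hw).symm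
  by_contra hj
  push Not at hj
  apply h0
  rw [ZMod.natCast_eq_zero_iff, hm, hn]
  refine Nat.mul_dvd_mul_left c ?_
  exact Dvd.dvd.mul_right (pow_dvd_pow l hj) w

theorem mem_all_one {l k : ℕ} (hl : l.Prime) (hn : n = l ^ k) (hm : m = 1 * n) (x : ZMod m) :
    ee p x ∈ genW p 1 n m := by
  have h := mem_even (p := p) hl hn hm x.val
  rw [one_mul, ZMod.natCast_zmod_val] at h
  exact h

theorem mem_all_two {l k : ℕ} (hl : l.Prime) (hl2 : l ≠ 2) (hn : n = l ^ k) (hm : m = 2 * n)
    (x : ZMod m) : ee p x ∈ genW p 2 n m := by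
  have h2 : 2 ∣ m := ⟨n, hm⟩
  have hmn : m / 2 = n := by omega
  have hodd : Odd n := by
    rw [hn]
    exact (hl.odd_of_ne_two hl2).pow
  obtain ⟨a, ha⟩ | ⟨a, ha⟩ := Nat.even_or_odd x.val
  · have h := mem_even (p := p) hl hn hm a
    have h3 : ((2 * a : ℕ) : ZMod m) = x := by
      have h4 : 2 * a = x.val := by omega
      rw [h4, ZMod.natCast_zmod_val]
    rw [h3] at h
    exact h
  · by_cases hx : ((2 : ℕ) : ZMod m) * x = 0
    · have h3 : x = ((m / 2 : ℕ) : ZMod m) := by
        have h4 : ((2 * x.val : ℕ) : ZMod m) = 0 := by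
          push_cast
          rw [ZMod.natCast_zmod_val]
          exact_mod_cast hx
        rw [ZMod.natCast_eq_zero_iff] at h4
        have h4' : 2 * n ∣ 2 * x.val := by
          rw [← hm]
          exact h4
        have h5 : n ∣ x.val := Nat.dvd_of_mul_dvd_mul_left (by norm_num) h4'
        obtain ⟨b, hb⟩ := h5
        have h6 : x.val < m := ZMod.val_lt x
        have h7 : x.val = n := by
          have h8 : b ≠ 0 := by
            rintro rfl
            omega
          have h9 : b < 2 := by
            by_contra h9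
            push Not at h9
            have : n * 2 ≤ n * b := Nat.mul_le_mul_left n h9
            omega
          have h10 : b = 1 := by omega
          rw [hb, h10, mul_one]
        rw [hmn, ← h7, ZMod.natCast_zmod_val]
      rw [h3]
      exact half_mem h2
    · have h3 := ee_dist (p := p) Nat.prime_two h2 x hx
      have h4 : fib m 2 (((2 : ℕ) : ZMod m) * x) = {x, x + ((m / 2 : ℕ) : ZMod m)} := by
        have h5 : x ≠ x + ((m / 2 : ℕ) : ZMod m) := by
          intro h
          exact half_ne h2 (by simpa using h.symm)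
        refine (Finset.eq_of_subset_of_card_le ?_ ?_).symm
        · intro z hz
          rw [Finset.mem_insert, Finset.mem_singleton] at hz
          rw [mem_fib]
          rcases hz with rfl | rfl
          · rfl
          · have h6 : ((m / 2 : ℕ) : ZMod m) + ((m / 2 : ℕ) : ZMod m) = 0 := by
              have := half_neg h2
              rw [neg_eq_iff_add_eq_zero] at this
              exact this
            push_cast at h6 ⊢
            linear_combination h6
        · rw [fib_card (by norm_num) h2, Finset.card_pair h5]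
      have h5 : x ≠ x + ((m / 2 : ℕ) : ZMod m) := by
        intro h
        exact half_ne h2 (by simpa using h.symm)
      rw [h4, Finset.sum_pair h5, if_pos rfl] at h3
      have h6 : ee p x = ee p (((2 : ℕ) : ZMod m) * x) - ee p (x + ((m / 2 : ℕ) : ZMod m)) -
          ee p ((m / 2 : ℕ) : ZMod m) := by
        rw [h3]
        abel
      have h7 := mem_even (p := p) hl hn hm x.val
      have h8 : ((2 * x.val : ℕ) : ZMod m) = ((2 : ℕ) : ZMod m) * x := by
        rw [Nat.cast_mul, ZMod.natCast_zmod_val]
      rw [h8] at h7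
      obtain ⟨b, hb⟩ := hodd
      have h9 := mem_even (p := p) hl hn hm (a + b + 1)
      have h10 : ((2 * (a + b + 1) : ℕ) : ZMod m) = x + ((m / 2 : ℕ) : ZMod m) := by
        have h11 : 2 * (a + b + 1) = x.val + m / 2 := by omega
        rw [h11, Nat.cast_add, ZMod.natCast_zmod_val]
      rw [h10] at h9
      rw [h6]
      exact AddSubgroup.sub_mem _ (AddSubgroup.sub_mem _ h7 h9) (half_mem h2)

/-- explicit form of the elements of the subgroup -/
theorem exists_coeff {q : QA p m} (hq : q ∈ genW p c n m) :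
    ∃ (b : (ZMod n)ˣ → ℤ) (e : ℤ), (¬ 2 ∣ m → e = 0) ∧
      q = ∑ u, b u • ee p (io c n m (u : ZMod n)) + e • ee p ((m / 2 : ℕ) : ZMod m) := by
  induction hq using AddSubgroup.closure_induction with
  | mem x hx =>
    rcases hx with ⟨u, rfl⟩ | ⟨h2, rfl⟩
    · refine ⟨Pi.single u 1, 0, fun _ => rfl, ?_⟩
      rw [Finset.sum_eq_single u]
      · simp
      · intro y _ hy
        rw [Pi.single_eq_of_ne hy, zero_smul]
      · intro h
        exact absurd (mem_univ u) h
    · exact ⟨0, 1, fun h => absurd h2 h, by simp⟩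
  | zero => exact ⟨0, 0, fun _ => rfl, by simp⟩
  | add x y _ _ ihx ihy =>
    obtain ⟨b, e, he, rfl⟩ := ihx
    obtain ⟨b', e', he', rfl⟩ := ihy
    refine ⟨b + b', e + e', fun h => by rw [he h, he' h, add_zero], ?_⟩
    have h1 : ∀ u : (ZMod n)ˣ, (b + b') u • ee p (io c n m (u : ZMod n)) =
        b u • ee p (io c n m (u : ZMod n)) + b' u • ee p (io c n m (u : ZMod n)) := by
      intro u
      rw [Pi.add_apply, add_zsmul]
    rw [sum_congr rfl fun u _ => h1 u, sum_add_distrib, add_zsmul]
    abel
  | neg x _ ih =>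
    obtain ⟨b, e, he, rfl⟩ := ih
    refine ⟨-b, -e, fun h => by rw [he h, neg_zero], ?_⟩
    have h1 : ∀ u : (ZMod n)ˣ, (-b) u • ee p (io c n m (u : ZMod n)) =
        - (b u • ee p (io c n m (u : ZMod n))) := by
      intro u
      rw [Pi.neg_apply, neg_zsmul]
    rw [sum_congr rfl fun u _ => h1 u, sum_neg_distrib, neg_zsmul]
    abel

end gen

end

end Pool.Agent.Helper9.Fermat
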