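import Pool.Agent.Helper9.Fermat.GenD
import Pool.Agent.Helper9.Fermat.Stick3

/-! Tate characters of products of Fermat varieties of different prime power degrees. -/

set_option autoImplicit false

namespace Pool.Agent.Helper9.Fermat

open Finset

/-- The family `S j` of characters of the Fermat varieties of degrees `m j` is a Tate character: the
eigenvalue of Frobenius on the corresponding line in the cohomology of the product of Fermat
varieties, which up to a power of `q` is the product of all Gauss sums, is a root of unity times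
the expected power of `q`. -/
def IsTate {F : Type} [Field F] [Fintype F] {ι : Type} [Fintype ι] {m : ι → ℕ}
    (χ : ι → MulChar F ℂ) (ψ : AddChar F ℂ) (S : ∀ j, Multiset (ZMod (m j))) : Prop :=
  (∀ j, (0 : ZMod (m j)) ∉ S j ∧ (S j).sum = 0) ∧ Even (∑ j, (S j).card) ∧ ∃ N : ℕ, 0 < N ∧
    (∏ j, ((S j).map fun x => gaussSum (χ j ^ x.val) ψ).prod) ^ N =
      ((Fintype.card F : ℂ) ^ ((∑ j, (S j).card) / 2)) ^ N

theorem exists_gen (F : Type) [Field F] [Fintype F] :
    ∃ χ₀ : MulChar F ℂ, orderOf χ₀ = Fintype.card F - 1 ∧ ∀ χ : MulChar F ℂ, ∃ k : ℕ, χ = χ₀ ^ k := by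
  classical
  have hQ : 0 < Fintype.card F - 1 := by
    have := Fintype.one_lt_card (α := F)
    omega
  obtain ⟨χ₀, h0⟩ := MulChar.exists_mulChar_orderOf F (n := Fintype.card F - 1) dvd_rfl
    (Complex.isPrimitiveRoot_exp _ hQ.ne')
  refine ⟨χ₀, h0, ?_⟩
  have hcard : Nat.card (MulChar F ℂ) = Fintype.card F - 1 := by
    rw [MulChar.card_eq_card_units_of_hasEnoughRootsOfUnity, Nat.card_eq_fintype_card,
      Fintype.card_units]
  have : Finite (MulChar F ℂ) := Nat.finite_of_card_ne_zero (by omega)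
  have htop : Subgroup.zpowers χ₀ = ⊤ := by
    refine Subgroup.eq_top_of_card_eq _ ?_
    rw [Nat.card_zpowers, h0, hcard]
  intro χ
  have h1 : χ ∈ Subgroup.zpowers χ₀ := by rw [htop]; trivial
  rw [← mem_powers_iff_mem_zpowers] at h1
  obtain ⟨k, hk⟩ := h1
  exact ⟨k, hk.symm⟩

theorem exists_unit {G : Type*} [Group G] (g : G) {Q k m : ℕ} (hQ : 0 < Q)
    (hg : orderOf g = Q) (hk : orderOf (g ^ k) = m) :
    ∃ u, Nat.Coprime u m ∧ k = (Q / m) * u ∧ Q = (Q / m) * m := by
  have hfin : IsOfFinOrder g := orderOf_pos_iff.1 (by rw [hg]; exact hQ)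
  have h1 : m = Q / Nat.gcd Q k := by rw [← hk, hfin.orderOf_pow, hg]
  set d := Nat.gcd Q k with hd
  have hd0 : 0 < d := Nat.gcd_pos_of_pos_left k hQ
  have hdQ : d ∣ Q := Nat.gcd_dvd_left Q k
  have hdk : d ∣ k := Nat.gcd_dvd_right Q k
  have hQm : Q = d * m := by rw [h1, Nat.mul_div_cancel' hdQ]
  have hm0 : 0 < m := by
    rcases Nat.eq_zero_or_pos m with h | h
    · rw [h, mul_zero] at hQm
      omega
    · exact h
  have hdiv : Q / m = d := by
    rw [hQm]
    exact Nat.mul_div_cancel d hm0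
  refine ⟨k / d, ?_, ?_, ?_⟩
  · have h2 := Nat.coprime_div_gcd_div_gcd (m := Q) (n := k) hd0
    rw [← hd, ← h1] at h2
    exact h2.symm
  · rw [hdiv, Nat.mul_div_cancel' hdk]
  · rw [hdiv]
    exact hQm

section vals

variable {Q m : ℕ} [NeZero Q] [NeZero m]

theorem val_level {G k u : ℕ} (hk : k = G * u) (hQ : Q = G * m) (p i : ℕ) (t : ZMod Q)
    (x : ZMod m) :
    ((p : ZMod Q) ^ i * (t * ((k * x.val : ℕ) : ZMod Q))).val =
      G * ((p : ZMod m) ^ i * (((t.val : ℕ) : ZMod m) * (u : ZMod m) * x)).val := by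
  have h1 : (p : ZMod Q) ^ i * (t * ((k * x.val : ℕ) : ZMod Q)) =
      ((G * (p ^ i * (t.val * u * x.val)) : ℕ) : ZMod Q) := by
    rw [hk]
    push_cast
    rw [ZMod.natCast_zmod_val]
    ring
  have h2 : (p : ZMod m) ^ i * (((t.val : ℕ) : ZMod m) * (u : ZMod m) * x) =
      ((p ^ i * (t.val * u * x.val) : ℕ) : ZMod m) := by
    push_cast
    rw [ZMod.natCast_zmod_val]
  have h3 : ∀ a : ℕ, (G * a) % Q = G * (a % m) := by
    intro a
    rw [hQ]
    exact Nat.mul_mod_mul_left _ _ _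
  rw [h1, h2, ZMod.val_natCast, ZMod.val_natCast]
  exact h3 _

end vals

/-- signs can be prescribed independently -/
theorem exists_sign {ι : Type} [Fintype ι] [DecidableEq ι] {n m : ι → ℕ} {Q : ℕ} [NeZero Q]
    (hcop : Pairwise fun j k => Nat.Coprime (n j) (n k))
    (hm : ∀ j, m j = n j ∨ (Odd (n j) ∧ m j = 2 * n j)) (hQ : ∀ j, m j ∣ Q) (j : ι) :
    ∃ c : (ZMod Q)ˣ, ∀ k, ((((c : ZMod Q).val : ℕ) : ZMod (m k)) = if k = j then 1 else -1) := by
  have hnm : ∀ k, n k ∣ m k := by
    intro k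
    rcases hm k with h | ⟨-, h⟩
    · rw [h]
    · rw [h]
      exact Dvd.intro_left 2 rfl
  have hN : ∏ k, n k ∣ Q := by
    refine Finset.prod_dvd_of_isRelPrime ?_ (fun k _ => (hnm k).trans (hQ k))
    intro a _ b _ hab
    exact Nat.coprime_iff_isRelPrime.1 (hcop hab)
  let e := ZMod.prodEquivPi n hcop
  let s : Π k, ZMod (n k) := fun k => if k = j then 1 else -1
  have hs : s * s = 1 := by
    funext k
    change (if k = j then (1 : ZMod (n k)) else -1) * (if k = j then 1 else -1) = 1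
    split_ifs <;> simp
  let w : (ZMod (∏ k, n k))ˣ := ⟨e.symm s, e.symm s, by rw [← map_mul, hs, map_one],
    by rw [← map_mul, hs, map_one]⟩
  obtain ⟨c, hc⟩ := ZMod.unitsMap_surjective hN w
  refine ⟨c, fun k => ?_⟩
  have h1 : (((c : ZMod Q).val : ℕ) : ZMod (∏ k, n k)) = e.symm s := by
    have h2 := congrArg Units.val hc
    rw [ZMod.unitsMap_val] at h2
    rw [ZMod.natCast_val]
    exact h2
  have h2 : (((c : ZMod Q).val : ℕ) : ZMod (n k)) = s k := by
    have h3 := congrArg (fun z => e z k) h1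
    simp only [RingEquiv.apply_symm_apply] at h3
    rw [ZMod.prodEquivPi_apply, map_natCast] at h3
    exact h3
  have key : ∀ ε : ℤ, (ε = 1 ∨ ε = -1) → (((c : ZMod Q).val : ℕ) : ZMod (n k)) = (ε : ZMod (n k)) →
      (((c : ZMod Q).val : ℕ) : ZMod (m k)) = (ε : ZMod (m k)) := by
    intro ε hε h
    rcases hm k with h4 | ⟨hodd, h4⟩
    · rw [h4]
      exact h
    · have h5 : (n k : ℤ) ∣ ((c : ZMod Q).val : ℤ) - ε := by
        rw [← ZMod.intCast_zmod_eq_zero_iff_dvd]
        push_cast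
        rw [ZMod.natCast_val] at h
        rw [sub_eq_zero]
        have : (((c : ZMod Q).val : ℤ) : ZMod (n k)) = (((c : ZMod Q).val : ℕ) : ZMod (n k)) := by
          push_cast
          rfl
        rw [ZMod.natCast_val]
        exact h
      have h6 : (2 : ℤ) ∣ ((c : ZMod Q).val : ℤ) - ε := by
        have h7 : 2 ∣ Q := by
          have := hQ k
          rw [h4] at this
          exact (Dvd.intro _ rfl).trans this
        have h8 : Nat.Coprime (c : ZMod Q).val Q := ZMod.val_coe_unit_coprime c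
        have h9 : Nat.Coprime (c : ZMod Q).val 2 := Nat.Coprime.coprime_dvd_right h7 h8
        rw [Nat.coprime_two_right] at h9
        obtain ⟨b, hb⟩ := h9
        rw [hb]
        rcases hε with rfl | rfl
        · exact ⟨b, by push_cast; ring⟩
        · exact ⟨b + 1, by push_cast; ring⟩
      have h10 : (m k : ℤ) ∣ ((c : ZMod Q).val : ℤ) - ε := by
        rw [h4]
        push_cast
        refine IsCoprime.mul_dvd ?_ h6 h5
        have : Nat.Coprime 2 (n k) := (Nat.coprime_two_left).2 hodd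
        exact_mod_cast (Nat.isCoprime_iff_coprime.2 this)
      rw [← ZMod.intCast_zmod_eq_zero_iff_dvd] at h10
      push_cast at h10
      rw [sub_eq_zero] at h10
      exact_mod_cast h10
  by_cases hkj : k = j
  · rw [if_pos hkj]
    have h3 := key 1 (Or.inl rfl) (by
      rw [h2]
      simp only [s, if_pos hkj]
      push_cast
      rfl)
    rw [h3]
    push_cast
    rfl
  · rw [if_neg hkj]
    have h3 := key (-1) (Or.inr rfl) (by
      rw [h2]
      simp only [s, if_neg hkj]
      push_cast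
      rfl)
    rw [h3]
    push_cast
    rfl

theorem sum_map_prod {ι A M : Type*} [CommMonoid M] (g : A → M) (T : ι → Multiset A)
    (s : Finset ι) : ((∑ j ∈ s, T j).map g).prod = ∏ j ∈ s, ((T j).map g).prod := by
  classical
  induction s using Finset.induction_on with
  | empty => simp
  | insert a s ha ih =>
    rw [Finset.sum_insert ha, Multiset.map_add, Multiset.prod_add, ih, Finset.prod_insert ha]

theorem sum_map_sum {ι A M : Type*} [AddCommMonoid M] (g : A → M) (T : ι → Multiset A)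
    (s : Finset ι) : ((∑ j ∈ s, T j).map g).sum = ∑ j ∈ s, ((T j).map g).sum := by
  classical
  induction s using Finset.induction_on with
  | empty => simp
  | insert a s ha ih =>
    rw [Finset.sum_insert ha, Multiset.map_add, Multiset.sum_add, ih, Finset.sum_insert ha]

theorem wt_neg' {m : ℕ} [NeZero m] (p F : ℕ) (t x : ZMod m) : wt p F (-t) x = - wt p F t x := by
  rw [← wt_neg, wt, wt]
  refine sum_congr rfl fun i _ => ?_
  rw [neg_mul, mul_neg, mul_neg t x, mul_neg]

theorem wt_sum {m : ℕ} [NeZero m] (p F : ℕ) (hp : IsUnit (p : ZMod m)) (a : ZMod m) (ha : IsUnit a)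
    (S : Multiset (ZMod m)) (h0 : (0 : ZMod m) ∉ S) :
    (S.map (wt p F a)).sum =
      2 * (((S.map fun x => ∑ i ∈ range F, ((p : ZMod m) ^ i * (a * x)).val).sum : ℕ) : ℤ) -
        m * F * S.card := by
  induction S using Multiset.induction_on with
  | empty => simp
  | cons x S ih =>
    have hx : x ≠ 0 := by
      rintro rfl
      exact h0 (Multiset.mem_cons_self _ _)
    have ih' := ih (fun h => h0 (Multiset.mem_cons_of_mem h))
    rw [Multiset.map_cons, Multiset.sum_cons, ih', Multiset.map_cons, Multiset.sum_cons,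
      Multiset.card_cons, wt]
    have h2 : ∀ i ∈ range F, sw ((p : ZMod m) ^ i * (a * x)) =
        2 * ((((p : ZMod m) ^ i * (a * x)).val : ℕ) : ℤ) - m := by
      intro i _
      refine sw_of_ne ?_
      intro h
      have h3 := ((hp.pow i).mul_right_eq_zero).1 h
      exact hx ((ha.mul_right_eq_zero).1 h3)
    rw [sum_congr rfl h2, sum_sub_distrib, sum_const, card_range, ← mul_sum, nsmul_eq_mul]
    push_cast
    ring

theorem wt_family {p f : ℕ} [Fact p.Prime] {F : Type} [Field F] [Fintype F] [CharP F p]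
    (hcard : Fintype.card F = p ^ f) (hf : 0 < f)
    {ι : Type} [Fintype ι] {n m : ι → ℕ} [∀ j, NeZero (m j)]
    (hcop : Pairwise fun j k => Nat.Coprime (n j) (n k))
    (hm : ∀ j, m j = n j ∨ (Odd (n j) ∧ m j = 2 * n j))
    (χ : ι → MulChar F ℂ) (hχ : ∀ j, orderOf (χ j) = m j)
    (ψ : AddChar F ℂ) (hψ : ψ ≠ 1) (S : ∀ j, Multiset (ZMod (m j))) (hS : IsTate χ ψ S)
    (hunit : ∀ j, IsUnit (p : ZMod (m j))) (j : ι) (t : (ZMod (m j))ˣ) :
    ((S j).map (wt p f (t : ZMod (m j)))).sum = 0 := by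
  classical
  obtain ⟨hS0, heven, N, hN, hT⟩ := hS
  obtain ⟨χ₀, hord, hgen⟩ := exists_gen F
  set Q := Fintype.card F - 1 with hQdef
  have hQ0 : 0 < Q := by
    have := Fintype.one_lt_card (α := F)
    omega
  have : NeZero Q := ⟨hQ0.ne'⟩
  choose k hk using fun j => hgen (χ j)
  have hu : ∀ j, ∃ u, Nat.Coprime u (m j) ∧ k j = (Q / m j) * u ∧ Q = (Q / m j) * m j := by
    intro j
    refine exists_unit χ₀ hQ0 hord ?_
    rw [← hk j, hχ j]
  choose u hu1 hu2 hu3 using hu
  have hdvd : ∀ j, m j ∣ Q := fun j => Dvd.intro_left _ (hu3 j).symm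
  have hG0 : ∀ j, 0 < Q / m j := fun j =>
    Nat.div_pos (Nat.le_of_dvd hQ0 (hdvd j)) (Nat.pos_of_ne_zero (NeZero.ne _))
  -- the multiset of level `Q`
  set T : ι → Multiset (ZMod Q) := fun j =>
    (S j).map (fun x : ZMod (m j) => ((k j * x.val : ℕ) : ZMod Q)) with hTdef
  have h0 : (0 : ZMod Q) ∉ ∑ j, T j := by
    intro h
    rw [Multiset.mem_sum] at h
    obtain ⟨j, -, hj⟩ := h
    rw [hTdef, Multiset.mem_map] at hj
    obtain ⟨x, hx, hx0⟩ := hj
    rw [ZMod.natCast_eq_zero_iff, hu2 j] at hx0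
    have h1 : (Q / m j) * m j ∣ (Q / m j) * (u j * x.val) := by
      rw [← hu3 j, ← mul_assoc]
      exact hx0
    have h2 : m j ∣ u j * x.val := Nat.dvd_of_mul_dvd_mul_left (hG0 j) h1
    have h3 : m j ∣ x.val := (Nat.Coprime.symm (hu1 j)).dvd_of_dvd_mul_left h2
    have h4 : x = 0 := by
      rw [← ZMod.natCast_zmod_val x]
      exact (ZMod.natCast_eq_zero_iff _ _).2 h3
    rw [h4] at hx
    exact (hS0 j).1 hx
  have hcardT : (∑ j, T j).card = ∑ j, (S j).card := by
    rw [Multiset.card_sum]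
    exact sum_congr rfl fun j _ => by rw [hTdef, Multiset.card_map]
  have hprod : ((∑ j, T j).map fun x => gaussSum (χ₀ ^ x.val) ψ).prod =
      ∏ j, ((S j).map fun x => gaussSum (χ j ^ x.val) ψ).prod := by
    rw [sum_map_prod]
    refine Finset.prod_congr rfl fun j _ => ?_
    rw [hTdef, Multiset.map_map]
    congr 1
    refine Multiset.map_congr rfl fun x _ => ?_
    rw [Function.comp_apply, ZMod.val_natCast, ← hord, pow_mod_orderOf, pow_mul, ← hk j]
  have hstick : ∀ t : (ZMod Q)ˣ,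
      2 * ((∑ j, T j).map fun x => ∑ i ∈ range f, ((p : ZMod Q) ^ i * ((t : ZMod Q) * x)).val).sum =
        Q * f * (∑ j, T j).card := by
    intro t
    refine stick hcard χ₀ hord ψ hψ _ h0 hN ?_ t
    rw [hprod, hcardT, mul_comm 2 N, pow_mul, hT, ← pow_mul, ← pow_mul]
    congr 1
    obtain ⟨a, ha⟩ := heven
    have h1 : (∑ j, (S j).card) / 2 = a := by omega
    rw [h1, ha]
    ring
  -- the components
  let W : ι → (ZMod Q)ˣ → ℤ := fun j t => (Q / m j : ℕ) *
    ((S j).map (wt p f ((((t : ZMod Q).val : ℕ) : ZMod (m j)) * (u j : ZMod (m j))))).sum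
  have hτ : ∀ j (t : (ZMod Q)ˣ), (((t : ZMod Q).val : ℕ) : ZMod (m j)) =
      ((ZMod.unitsMap (hdvd j) t : (ZMod (m j))ˣ) : ZMod (m j)) := by
    intro j t
    rw [ZMod.unitsMap_val, ZMod.natCast_val]
  have hτu : ∀ j (t : (ZMod Q)ˣ), IsUnit ((((t : ZMod Q).val : ℕ) : ZMod (m j)) *
      (u j : ZMod (m j))) := by
    intro j t
    rw [hτ]
    exact (Units.isUnit _).mul ((ZMod.isUnit_iff_coprime _ _).2 (hu1 j))
  have hW : ∀ t, ∑ j, W j t = 0 := by
    intro t
    have h1 := hstick t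
    rw [sum_map_sum, hcardT] at h1
    have h2 : ∀ j ∈ (univ : Finset ι), W j t = 2 * ((((T j).map fun x =>
        ∑ i ∈ range f, ((p : ZMod Q) ^ i * ((t : ZMod Q) * x)).val).sum : ℕ) : ℤ) -
          Q * f * (S j).card := by
      intro j _
      simp only [W]
      rw [wt_sum p f (hunit j) _ (hτu j t) (S j) (hS0 j).1, hTdef, Multiset.map_map]
      have h3 : ((fun x => ∑ i ∈ range f, ((p : ZMod Q) ^ i * ((t : ZMod Q) * x)).val) ∘
          fun x : ZMod (m j) => ((k j * x.val : ℕ) : ZMod Q)) = fun x : ZMod (m j) =>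
            (Q / m j) * ∑ i ∈ range f, ((p : ZMod (m j)) ^ i *
              ((((t : ZMod Q).val : ℕ) : ZMod (m j)) * (u j : ZMod (m j)) * x)).val := by
        funext x
        rw [Function.comp_apply, mul_sum]
        exact sum_congr rfl fun i _ => val_level (hu2 j) (hu3 j) p i t x
      rw [h3, Multiset.sum_map_mul_left]
      have h4 : (Q : ℤ) = ((Q / m j : ℕ) : ℤ) * (m j : ℤ) := by
        exact_mod_cast hu3 j
      rw [h4]
      push_cast
      ring
    rw [sum_congr rfl h2, sum_sub_distrib, ← mul_sum, ← mul_sum]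
    have h5 : ((2 * ∑ j, ((T j).map fun x =>
        ∑ i ∈ range f, ((p : ZMod Q) ^ i * ((t : ZMod Q) * x)).val).sum : ℕ) : ℤ) =
        ((Q * f * ∑ j, (S j).card : ℕ) : ℤ) := by rw [h1]
    push_cast at h5
    push_cast
    rw [h5]
    ring
  obtain ⟨c, hc⟩ := exists_sign hcop hm hdvd j
  have hcW : ∀ i t, W i (c * t) = if i = j then W i t else - W i t := by
    intro i t
    simp only [W]
    have h1 : ((((c * t : (ZMod Q)ˣ) : ZMod Q).val : ℕ) : ZMod (m i)) =
        (((c : ZMod Q).val : ℕ) : ZMod (m i)) * (((t : ZMod Q).val : ℕ) : ZMod (m i)) := by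
      rw [hτ, hτ, hτ, map_mul, Units.val_mul]
    rw [h1, hc i]
    by_cases hij : i = j
    · rw [if_pos hij, if_pos hij, one_mul]
    · rw [if_neg hij, if_neg hij, neg_one_mul, neg_mul]
      have h2 : (S i).map (wt p f (-((((t : ZMod Q).val : ℕ) : ZMod (m i)) *
          (u i : ZMod (m i))))) = (S i).map fun x => -(wt p f ((((t : ZMod Q).val : ℕ) :
            ZMod (m i)) * (u i : ZMod (m i))) x) :=
        Multiset.map_congr rfl fun x _ => wt_neg' _ _ _ _
      rw [h2, Multiset.sum_map_neg, mul_neg]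
  have hWj : ∀ t, W j t = 0 := by
    intro t
    have h1 := hW t
    have h2 := hW (c * t)
    rw [sum_congr rfl fun i _ => hcW i t] at h2
    have h3 : ∑ i, (W i t + if i = j then W i t else - W i t) = 2 * W j t := by
      rw [Finset.sum_eq_single j]
      · rw [if_pos rfl]
        ring
      · intro i _ hij
        rw [if_neg hij]
        ring
      · intro h
        exact absurd (mem_univ j) h
    rw [sum_add_distrib, h1, h2, add_zero] at h3
    omega
  -- conclusion
  obtain ⟨v, hv⟩ := (ZMod.isUnit_iff_coprime _ _).2 (hu1 j)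
  obtain ⟨t', ht'⟩ := ZMod.unitsMap_surjective (hdvd j) (t * v⁻¹)
  have h1 := hWj t'
  simp only [W] at h1
  rw [hτ, ht', ← hv, ← Units.val_mul, inv_mul_cancel_right] at h1
  have h2 : ((Q / m j : ℕ) : ℤ) ≠ 0 := by exact_mod_cast (hG0 j).ne'
  exact (mul_eq_zero.1 h1).resolve_left h2

theorem neg_pow_of_odd {p n m : ℕ} (hodd : Odd n) (hm : m = 2 * n) (hp : IsUnit (p : ZMod m))
    (hneg : ∀ i : ℕ, (p : ZMod m) ^ i ≠ -1) (i : ℕ) : (p : ZMod n) ^ i ≠ -1 := by
  intro hi
  apply hneg i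
  have hpodd : Odd p := by
    have h1 : Nat.Coprime p m := (ZMod.isUnit_iff_coprime p m).1 hp
    rw [hm] at h1
    have h2 := Nat.Coprime.coprime_mul_right_right h1
    exact (Nat.coprime_two_right).1 h2
  have h1 : ((p ^ i + 1 : ℕ) : ZMod n) = 0 := by
    push_cast
    rw [hi]
    ring
  rw [ZMod.natCast_eq_zero_iff] at h1
  have h2 : 2 ∣ p ^ i + 1 := by
    have h3 : Odd (p ^ i) := hpodd.pow
    obtain ⟨a, ha⟩ := h3
    exact ⟨a + 1, by omega⟩
  have h3 : m ∣ p ^ i + 1 := by
    rw [hm]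
    exact Nat.Coprime.mul_dvd_of_dvd_of_dvd ((Nat.coprime_two_left).2 hodd) h2 h1
  have h4 : ((p ^ i + 1 : ℕ) : ZMod m) = 0 := (ZMod.natCast_eq_zero_iff _ _).2 h3
  push_cast at h4
  exact eq_neg_of_add_eq_zero_left h4

theorem main_fam {p : ℕ} [Fact p.Prime] {F : Type} [Field F] [Fintype F] [CharP F p]
    {ι : Type} [Fintype ι] {n m : ι → ℕ} [∀ j, NeZero (m j)]
    (hn : ∀ j, IsPrimePow (n j)) (hcop : Pairwise fun j k => Nat.Coprime (n j) (n k))
    (hm : ∀ j, m j = n j ∨ (Odd (n j) ∧ m j = 2 * n j))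
    (hneg : ∀ j (i : ℕ), (p : ZMod (m j)) ^ i ≠ -1) (χ : ι → MulChar F ℂ)
    (hχ : ∀ j, orderOf (χ j) = m j) (ψ : AddChar F ℂ) (hψ : ψ ≠ 1)
    (S : ∀ j, Multiset (ZMod (m j))) (hS : IsTate χ ψ S) (j : ι) : Gen p (m j) (S j) := by
  classical
  have hpp : p.Prime := Fact.out
  obtain ⟨f, hfp⟩ := FiniteField.card F p
  have hfpos : 0 < (f : ℕ) := f.pos
  have hcard : Fintype.card F = p ^ (f : ℕ) := hfp.2
  have hn0 : ∀ j, NeZero (n j) := fun j => ⟨(hn j).ne_zero⟩
  -- `m j` divides `q - 1`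
  have hdvd : ∀ j, m j ∣ Fintype.card F - 1 := by
    intro j
    rw [← hχ j]
    exact orderOf_dvd_of_pow_eq_one (by
      have h1 := MulChar.pow_card_eq_one (χ j)
      rwa [Fintype.card_units] at h1)
  have hpF : ∀ j, (p : ZMod (m j)) ^ (f : ℕ) = 1 := by
    intro j
    have h1 : ((Fintype.card F - 1 : ℕ) : ZMod (m j)) = 0 :=
      (ZMod.natCast_eq_zero_iff _ _).2 (hdvd j)
    rw [Nat.cast_sub Fintype.card_pos, hcard, sub_eq_zero] at h1
    push_cast at h1
    exact h1
  have hp : ∀ j, IsUnit (p : ZMod (m j)) := fun j => IsUnit.of_pow_eq_one (hpF j) hfpos.ne'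
  have hwt := wt_family hcard hfpos hcop hm χ hχ ψ hψ S hS hp
  obtain ⟨hS0, heven, -⟩ := hS
  -- the structure at `j`
  have hstr : ∀ j, ∃ c : ℕ, (c = 1 ∨ c = 2) ∧ m j = c * n j ∧
      (∀ x : ZMod (m j), ee p x ∈ genW p c (n j) (m j)) ∧
      (∀ i : ℕ, (p : ZMod (n j)) ^ i ≠ -1) := by
    intro j
    obtain ⟨l, k, hl, hk, hlk⟩ := hn j
    have hl' : l.Prime := hl.nat_prime
    rcases hm j with hm | ⟨hodd, hm⟩
    · have hm1 : m j = 1 * n j := by rw [hm, one_mul]
      refine ⟨1, Or.inl rfl, hm1, fun x => mem_all_one hl' hlk.symm hm1 x, ?_⟩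
      intro i hi
      apply hneg j i
      have h1 : ((p ^ i + 1 : ℕ) : ZMod (n j)) = 0 := by
        push_cast
        rw [hi]
        ring
      rw [ZMod.natCast_eq_zero_iff, ← hm] at h1
      have h4 : ((p ^ i + 1 : ℕ) : ZMod (m j)) = 0 := (ZMod.natCast_eq_zero_iff _ _).2 h1
      push_cast at h4
      exact eq_neg_of_add_eq_zero_left h4
    · have hl2 : l ≠ 2 := by
        rintro rfl
        rw [← hlk, Nat.odd_pow_iff hk.ne'] at hodd
        exact absurd hodd (by decide)
      exact ⟨2, Or.inr rfl, hm, fun x => mem_all_two hl' hl2 hlk.symm hm x,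
        neg_pow_of_odd hodd hm (hp j) (hneg j)⟩
  -- parity
  have hodd : ∀ j, Odd (n j) → Even (S j).card := by
    intro j hj
    obtain ⟨c, hc2, hmc, hall, hnegn⟩ := hstr j
    exact card_even_of_wt (hn j) hmc hall (hp j) f hfpos (hpF j) hnegn (S j) (hS0 j).1
      (hS0 j).2 hj hc2 (hwt j)
  have hev : Even (S j).card := by
    by_cases hj : Odd (n j)
    · exact hodd j hj
    · have h1 : ∀ i, i ≠ j → Even (S i).card := by
        intro i hij
        refine hodd i ?_
        rw [Nat.not_odd_iff_even] at hj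
        by_contra hi
        rw [Nat.not_odd_iff_even] at hi
        have h2 := hcop hij
        have h3 : 2 ∣ Nat.gcd (n i) (n j) := Nat.dvd_gcd hi.two_dvd hj.two_dvd
        rw [h2] at h3
        omega
      rw [← Finset.add_sum_erase univ (fun i => (S i).card) (mem_univ j)] at heven
      have h2 : Even (∑ i ∈ univ.erase j, (S i).card) :=
        Finset.even_sum _ fun i hi => h1 i (ne_of_mem_erase hi)
      exact (Nat.even_add.1 heven).2 h2
  obtain ⟨c, -, hmc, hall, hnegn⟩ := hstr j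
  exact gen_of_wt (hn j) hmc hall (hp j) f hfpos (hpF j) hnegn (S j) (hS0 j).1 (hS0 j).2 hev
    (hwt j)

end Pool.Agent.Helper9.Fermat
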