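import Mathlib

/-! A lemma on sums over a finite abelian group. -/

set_option autoImplicit false

namespace Pool.Agent.Helper9.Fermat

open Finset

noncomputable section

section coset

variable {G : Type*} [CommGroup G] [Fintype G] (P : G)

open Classical in
/-- sum over a coset -/
def csum (b : G → ℤ) (y : G ⧸ Subgroup.zpowers P) : ℤ :=
  ∑ u ∈ univ.filter (fun u : G => (u : G ⧸ Subgroup.zpowers P) = y), b u

open Classical in
theorem csum_shift (b : G → ℤ) (g : G) (y : G ⧸ Subgroup.zpowers P) :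
    ∑ u ∈ univ.filter (fun u : G => (u : G ⧸ Subgroup.zpowers P) = y), b (g * u) =
      csum P b ((g : G ⧸ Subgroup.zpowers P) * y) := by
  rw [csum]
  refine Finset.sum_nbij' (fun u => g * u) (fun u => g⁻¹ * u) ?_ ?_ ?_ ?_ ?_
  · intro u hu
    rw [mem_filter] at hu ⊢
    exact ⟨mem_univ _, by rw [QuotientGroup.mk_mul, hu.2]⟩
  · intro u hu
    rw [mem_filter] at hu ⊢
    refine ⟨mem_univ _, ?_⟩
    rw [QuotientGroup.mk_mul, hu.2, QuotientGroup.mk_inv, inv_mul_cancel_left]
  · intro u _
    exact inv_mul_cancel_left g u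
  · intro u _
    exact mul_inv_cancel_left g u
  · intro u _
    rfl

theorem coset_lemma {M : Type*} [AddCommGroup M] (h : G)
    (hh : h * h = 1) (hP : h ∉ Subgroup.zpowers P) (F : ℕ) (hF : 0 < F)
    (b : G → ℤ) (hb : ∀ u, ∑ i ∈ range F, (b (P ^ i * u) - b (h * (P ^ i * u))) = 0)
    (e : G → M) (he1 : ∀ u, e (P * u) = e u) (he2 : ∀ u, e (h * u) = - e u) :
    ∑ u, b u • e u = 0 := by
  classical
  have he3 : ∀ g ∈ Subgroup.zpowers P, ∀ u, e (g * u) = e u := by
    intro g hg
    have hz : Subgroup.zpowers P = Subgroup.closure {P} := Subgroup.zpowers_eq_closure P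
    rw [hz] at hg
    induction hg using Subgroup.closure_induction with
    | mem x hx =>
      rw [Set.mem_singleton_iff] at hx
      subst hx
      exact he1
    | one => intro u; rw [one_mul]
    | mul x y _ _ ihx ihy =>
      intro u
      rw [mul_assoc, ihx, ihy]
    | inv x _ ih =>
      intro u
      rw [← ih (x⁻¹ * u), mul_inv_cancel_left]
  have he4 : ∀ u v : G, (u : G ⧸ Subgroup.zpowers P) = v → e u = e v := by
    intro u v huv
    rw [QuotientGroup.eq] at huv
    rw [← he3 _ huv u]
    congr 1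
    rw [mul_comm u⁻¹ v, mul_assoc, inv_mul_cancel, mul_one]
  have hmk1 : ∀ i : ℕ, ((P ^ i : G) : G ⧸ Subgroup.zpowers P) = 1 := by
    intro i
    rw [QuotientGroup.eq_one_iff]
    exact Subgroup.pow_mem _ (Subgroup.mem_zpowers P) i
  have hb2 : ∀ y, csum P b ((h : G ⧸ Subgroup.zpowers P) * y) = csum P b y := by
    intro y
    have h1 : ∑ u ∈ univ.filter (fun u : G => (u : G ⧸ Subgroup.zpowers P) = y),
        ∑ i ∈ range F, (b (P ^ i * u) - b (h * (P ^ i * u))) = 0 :=
      Finset.sum_eq_zero fun u _ => hb u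
    rw [Finset.sum_comm] at h1
    have h2 : ∀ i ∈ range F, ∑ u ∈ univ.filter (fun u : G => (u : G ⧸ Subgroup.zpowers P) = y),
        (b (P ^ i * u) - b (h * (P ^ i * u))) =
        csum P b y - csum P b ((h : G ⧸ Subgroup.zpowers P) * y) := by
      intro i _
      rw [Finset.sum_sub_distrib, csum_shift, hmk1, one_mul]
      have h3 : ∀ u ∈ univ.filter (fun u : G => (u : G ⧸ Subgroup.zpowers P) = y),
          b (h * (P ^ i * u)) = b ((h * P ^ i) * u) := by
        intro u _
        rw [mul_assoc]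
      rw [Finset.sum_congr rfl h3, csum_shift, QuotientGroup.mk_mul, hmk1, mul_one]
    rw [Finset.sum_congr rfl h2, Finset.sum_const, card_range, nsmul_eq_mul] at h1
    have h4 : (F : ℤ) ≠ 0 := by exact_mod_cast hF.ne'
    have h5 := (mul_eq_zero.1 h1).resolve_left h4
    omega
  have hsum : ∑ u, b u • e u = ∑ y : G ⧸ Subgroup.zpowers P, csum P b y • e y.out := by
    rw [← Finset.sum_fiberwise univ (fun u : G => (u : G ⧸ Subgroup.zpowers P))]
    refine Finset.sum_congr rfl fun y _ => ?_
    rw [csum, Finset.sum_smul]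
    refine Finset.sum_congr rfl fun u hu => ?_
    rw [mem_filter] at hu
    congr 1
    refine he4 _ _ ?_
    rw [hu.2, QuotientGroup.out_eq']
  rw [hsum]
  have hh1 : (h : G ⧸ Subgroup.zpowers P) ≠ 1 := by
    rw [Ne, QuotientGroup.eq_one_iff]
    exact hP
  have hneg : ∀ y : G ⧸ Subgroup.zpowers P, e ((h : G ⧸ Subgroup.zpowers P) * y).out =
      - e y.out := by
    intro y
    rw [← he2]
    refine he4 _ _ ?_
    rw [QuotientGroup.out_eq', QuotientGroup.mk_mul, QuotientGroup.out_eq']
  refine Finset.sum_involution (fun y _ => (h : G ⧸ Subgroup.zpowers P) * y) ?_ ?_ ?_ ?_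
  · intro y _
    rw [hb2, hneg, smul_neg, add_neg_cancel]
  · intro y _ _ hy
    exact hh1 (by simpa using hy)
  · intro y _
    exact mem_univ _
  · intro y _
    rw [← mul_assoc, ← QuotientGroup.mk_mul, hh, QuotientGroup.mk_one, one_mul]

end coset

end

end Pool.Agent.Helper9.Fermat
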