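import Pool.Agent.Helper9.Fermat.GenD
import Pool.Agent.Helper9.Fermat.Stick3

/-! Tate characters of Fermat varieties of prime power or twice prime power degree. -/

set_option autoImplicit false

namespace Pool.Agent.Helper9.Fermat

open Finset

/-- The character `S` (with `S.card = n + 2`) of the Fermat variety `X` of degree `m` and dimension
`n` is a Tate character: the eigenvalue of Frobenius on the corresponding line in the cohomology
of `X`, a product of Gauss sums divided by `q`, is a root of unity times `q ^ (n / 2)`. -/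
def IsTate {F : Type} [Field F] [Fintype F] {m : ℕ} (χ : MulChar F ℂ) (ψ : AddChar F ℂ)
    (S : Multiset (ZMod m)) : Prop :=
  (0 : ZMod m) ∉ S ∧ S.sum = 0 ∧ Even S.card ∧ ∃ N : ℕ, 0 < N ∧
    (S.map fun x => gaussSum (χ ^ x.val) ψ).prod ^ N = ((Fintype.card F : ℂ) ^ (S.card / 2)) ^ N

theorem main {p : ℕ} [Fact p.Prime] {F : Type} [Field F] [Fintype F] [CharP F p]
    {n m : ℕ} [NeZero m] (hn : IsPrimePow n) (hm : m = n ∨ (Odd n ∧ m = 2 * n))
    (hneg : ∀ i : ℕ, (p : ZMod m) ^ i ≠ -1) (χ : MulChar F ℂ) (hχ : orderOf χ = m)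
    (ψ : AddChar F ℂ) (hψ : ψ ≠ 1) (S : Multiset (ZMod m)) (hS : IsTate χ ψ S) : Gen p m S := by
  classical
  obtain ⟨h0, hsum, heven, N, hN, hT⟩ := hS
  have hpp : p.Prime := Fact.out
  obtain ⟨f, hfp⟩ := FiniteField.card F p
  have hfpos : 0 < (f : ℕ) := f.pos
  have hcard : Fintype.card F = p ^ (f : ℕ) := hfp.2
  have hn0 : n ≠ 0 := hn.ne_zero
  have : NeZero n := ⟨hn0⟩
  -- `m` divides `q - 1`
  have hdvd : m ∣ Fintype.card F - 1 := by
    rw [← hχ]
    exact orderOf_dvd_of_pow_eq_one (by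
      have h1 := MulChar.pow_card_eq_one χ
      rwa [Fintype.card_units] at h1)
  have hpF : (p : ZMod m) ^ (f : ℕ) = 1 := by
    have h1 : ((Fintype.card F - 1 : ℕ) : ZMod m) = 0 := (ZMod.natCast_eq_zero_iff _ _).2 hdvd
    rw [Nat.cast_sub Fintype.card_pos, hcard, sub_eq_zero] at h1
    push_cast at h1
    exact h1
  have hp : IsUnit (p : ZMod m) := IsUnit.of_pow_eq_one hpF hfpos.ne'
  -- Stickelberger
  have hstick : ∀ t : (ZMod m)ˣ,
      2 * (S.map fun x => ∑ i ∈ range f, ((p : ZMod m) ^ i * ((t : ZMod m) * x)).val).sum =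
        m * f * S.card := by
    intro t
    refine stick hcard χ hχ ψ hψ S h0 hN ?_ t
    rw [mul_comm 2 N, pow_mul, hT, ← pow_mul, ← pow_mul]
    congr 1
    obtain ⟨a, ha⟩ := heven
    have h1 : S.card / 2 = a := by omega
    rw [h1, ha]
    ring
  have hwt : ∀ t : (ZMod m)ˣ, (S.map (wt p f (t : ZMod m))).sum = 0 := by
    intro t
    have h1 : S.map (wt p f (t : ZMod m)) = S.map fun x =>
        (2 * ((∑ i ∈ range f, ((p : ZMod m) ^ i * ((t : ZMod m) * x)).val : ℕ) : ℤ) - m * f) := by
      refine Multiset.map_congr rfl fun x hx => ?_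
      have hx0 : x ≠ 0 := by
        rintro rfl
        exact h0 hx
      rw [wt]
      have h2 : ∀ i ∈ range (f : ℕ), sw ((p : ZMod m) ^ i * ((t : ZMod m) * x)) =
          2 * ((((p : ZMod m) ^ i * ((t : ZMod m) * x)).val : ℕ) : ℤ) - m := by
        intro i _
        refine sw_of_ne ?_
        intro h
        have h3 := ((hp.pow i).mul_right_eq_zero).1 h
        exact hx0 ((t.isUnit.mul_right_eq_zero).1 h3)
      rw [sum_congr rfl h2, sum_sub_distrib, sum_const, card_range, ← mul_sum]
      push_cast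
      rw [nsmul_eq_mul]
      ring
    rw [h1]
    have h2 : ∀ (U : Multiset (ZMod m)) (s : ZMod m → ℕ),
        (U.map fun x => (2 * (s x : ℤ) - m * f)).sum =
          2 * (((U.map s).sum : ℕ) : ℤ) - m * f * U.card := by
      intro U s
      induction U using Multiset.induction_on with
      | empty => simp
      | cons x U ih =>
        rw [Multiset.map_cons, Multiset.sum_cons, ih, Multiset.map_cons, Multiset.sum_cons,
          Multiset.card_cons]
        push_cast
        ring
    rw [h2]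
    have h3 := hstick t
    have h4 : (2 : ℤ) * (((S.map fun x =>
        ∑ i ∈ range f, ((p : ZMod m) ^ i * ((t : ZMod m) * x)).val).sum : ℕ) : ℤ) =
        m * f * S.card := by exact_mod_cast h3
    rw [h4, sub_self]
  rcases hm with hm | ⟨hodd, hm⟩
  · have hm1 : m = 1 * n := by rw [hm, one_mul]
    obtain ⟨l, k, hl, hk, hlk⟩ := hn
    have hl' : l.Prime := hl.nat_prime
    refine gen_of_wt (c := 1) (n := n) ⟨l, k, hl, hk, hlk⟩ hm1
      (fun x => mem_all_one hl' hlk.symm hm1 x) hp f hfpos hpF ?_ S h0 hsum heven hwt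
    subst hm
    exact hneg
  · obtain ⟨l, k, hl, hk, hlk⟩ := hn
    have hl' : l.Prime := hl.nat_prime
    have hl2 : l ≠ 2 := by
      rintro rfl
      rw [← hlk, Nat.odd_pow_iff hk.ne'] at hodd
      exact absurd hodd (by decide)
    refine gen_of_wt (c := 2) (n := n) ⟨l, k, hl, hk, hlk⟩ hm
      (fun x => mem_all_two hl' hl2 hlk.symm hm x) hp f hfpos hpF ?_ S h0 hsum heven hwt
    intro i hi
    apply hneg i
    have hpodd : Odd p := by
      have h1 : Nat.Coprime p m := (ZMod.isUnit_iff_coprime p m).1 hp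
      rw [hm] at h1
      have h2 := Nat.Coprime.coprime_mul_right_right h1
      exact (Nat.coprime_two_right).1 h2
    have h1 : ((p ^ i + 1 : ℕ) : ZMod n) = 0 := by
      push_cast
      rw [hi]
      ring
    rw [ZMod.natCast_eq_zero_iff] at h1
    have h2 : 2 ∣ p ^ i + 1 := by
      have h3 : Odd (p ^ i) := hpodd.pow
      obtain ⟨a, ha⟩ := h3
      exact ⟨a + 1, by omega⟩
    have h3 : m ∣ p ^ i + 1 := by
      rw [hm]
      exact Nat.Coprime.mul_dvd_of_dvd_of_dvd ((Nat.coprime_two_left).2 hodd) h2 h1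
    have h4 : ((p ^ i + 1 : ℕ) : ZMod m) = 0 := (ZMod.natCast_eq_zero_iff _ _).2 h3
    push_cast at h4
    exact eq_neg_of_add_eq_zero_left h4

end Pool.Agent.Helper9.Fermat
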