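import Mathlib

/-! Characters of algebraic classes on Fermat varieties: the inductive structure. -/

set_option autoImplicit false

namespace Pool.Agent.Helper9.Fermat

open Finset

/-- The smallest system of finite multisets of elements of `ℤ/m` which contains the pairs
`{x, -x}`, `x ≠ 0`, the graphs of Frobenius `{x, y, z, -px, -py, -pz}`, `x + y + z = 0`, `x, y, z`
nonzero, and the standard elements (all `z` with `r z = r x`, and `- r x`, and `m / 2` if `r = 2`),
`r` a prime dividing `m`, `r x ≠ 0`, and is closed under joins and cancellation of pairs. -/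
inductive Gen (p m : ℕ) [NeZero m] : Multiset (ZMod m) → Prop
  | pair (x : ZMod m) (hx : x ≠ 0) : Gen p m {x, -x}
  | graph (x y z : ZMod m) (hx : x ≠ 0) (hy : y ≠ 0) (hz : z ≠ 0) (h : x + y + z = 0) :
      Gen p m {x, y, z, -(p * x), -(p * y), -(p * z)}
  | standard (r : ℕ) (hr : r.Prime) (hrm : r ∣ m) (x : ZMod m) (hx : (r : ZMod m) * x ≠ 0) :
      Gen p m ((univ.filter fun z : ZMod m => (r : ZMod m) * z = r * x).val + {-(r * x)} +
        (if r = 2 then {((m / 2 : ℕ) : ZMod m)} else 0))
  | join (S T : Multiset (ZMod m)) (hS : Gen p m S) (hT : Gen p m T) : Gen p m (S + T)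
  | cancel (S : Multiset (ZMod m)) (x : ZMod m) (hx : x ≠ 0) (hS : Gen p m (S + {x, -x})) :
      Gen p m S

end Pool.Agent.Helper9.Fermat
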