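import Pool.Agent.Helper9.Fermat.Gen

/-! Basic facts on the system `Gen`. -/

set_option autoImplicit false

namespace Pool.Agent.Helper9.Fermat

open Finset

noncomputable section

variable {p m : ℕ} [NeZero m]

/-! ### fibres of multiplication by a prime divisor -/

/-- the solutions of `r z = y` -/
def fib (m r : ℕ) [NeZero m] (y : ZMod m) : Finset (ZMod m) :=
  univ.filter fun z : ZMod m => (r : ZMod m) * z = y

theorem mem_fib {r : ℕ} {y z : ZMod m} : z ∈ fib m r y ↔ (r : ZMod m) * z = y := by
  simp [fib]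

theorem dvd_val {r : ℕ} (hrm : r ∣ m) (x : ZMod m) : r ∣ ((r : ZMod m) * x).val := by
  rw [ZMod.val_mul, ZMod.val_natCast]
  have h1 : r ∣ r % m := (Nat.dvd_mod_iff hrm).2 dvd_rfl
  exact (Nat.dvd_mod_iff hrm).2 (h1.mul_right _)

/-- explicit description of the fibres -/
theorem fib_eq {r : ℕ} (hr : 0 < r) (hrm : r ∣ m) (x : ZMod m) :
    fib m r (r * x) =
      (range r).image fun j => (((((r : ZMod m) * x).val / r + j * (m / r) : ℕ)) : ZMod m) := by
  have hm0 : 0 < m := Nat.pos_of_ne_zero (NeZero.ne m)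
  obtain ⟨d, hd⟩ := hrm
  have hmr : m / r = d := by rw [hd]; exact Nat.mul_div_cancel_left d hr
  have hd0 : 0 < d := Nat.pos_of_ne_zero (by rintro rfl; rw [mul_zero] at hd; omega)
  obtain ⟨c, hc⟩ := dvd_val (m := m) ⟨d, hd⟩ x
  have hcr : ((r : ZMod m) * x).val / r = c := by rw [hc]; exact Nat.mul_div_cancel_left c hr
  rw [hmr, hcr]
  ext z
  rw [mem_fib, mem_image]
  constructor
  · intro hz
    have h1 : (r * z.val) ≡ r * c [MOD m] := by
      rw [← ZMod.natCast_eq_natCast_iff]
      push_cast
      rw [ZMod.natCast_zmod_val, hz, ← Nat.cast_mul, ← hc, ZMod.natCast_zmod_val]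
    have h2 : z.val ≡ c [MOD d] := by
      have h1' : (r * z.val) ≡ r * c [MOD r * d] := by
        rw [← hd]
        exact h1
      exact Nat.ModEq.mul_left_cancel' hr.ne' h1'
    have hcd : c < d := by
      have h3 : ((r : ZMod m) * x).val < m := ZMod.val_lt _
      rw [hc, hd] at h3
      exact Nat.lt_of_mul_lt_mul_left h3
    refine ⟨z.val / d, ?_, ?_⟩
    · rw [mem_range, Nat.div_lt_iff_lt_mul hd0, ← hd]
      exact ZMod.val_lt _
    · have h4 : z.val % d = c := by
        rw [h2, Nat.mod_eq_of_lt hcd]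
      have h5 : c + z.val / d * d = z.val := by
        rw [← h4, mul_comm]
        exact Nat.mod_add_div _ _
      rw [h5, ZMod.natCast_zmod_val]
  · rintro ⟨j, -, rfl⟩
    push_cast
    rw [mul_add]
    have h1 : (r : ZMod m) * (c : ZMod m) = r * x := by
      rw [← Nat.cast_mul, ← hc, ZMod.natCast_zmod_val]
    have h2 : (r : ZMod m) * ((j : ZMod m) * (d : ZMod m)) = 0 := by
      have : ((r * (j * d) : ℕ) : ZMod m) = 0 := by
        rw [ZMod.natCast_eq_zero_iff]
        exact ⟨j, by rw [hd]; ring⟩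
      push_cast at this
      exact this
    rw [h1, h2, add_zero]

theorem fib_injOn {r : ℕ} (hr : 0 < r) (hrm : r ∣ m) (x : ZMod m) :
    Set.InjOn (fun j : ℕ => (((((r : ZMod m) * x).val / r + j * (m / r) : ℕ)) : ZMod m))
      (range r : Set ℕ) ∧ ∀ j ∈ range r, ((r : ZMod m) * x).val / r + j * (m / r) < m := by
  have hm0 : 0 < m := Nat.pos_of_ne_zero (NeZero.ne m)
  obtain ⟨d, hd⟩ := hrm
  have hmr : m / r = d := by rw [hd]; exact Nat.mul_div_cancel_left d hr
  have hd0 : 0 < d := Nat.pos_of_ne_zero (by rintro rfl; rw [mul_zero] at hd; omega)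
  obtain ⟨c, hc⟩ := dvd_val (m := m) ⟨d, hd⟩ x
  have hcr : ((r : ZMod m) * x).val / r = c := by rw [hc]; exact Nat.mul_div_cancel_left c hr
  have hcd : c < d := by
    have h3 : ((r : ZMod m) * x).val < m := ZMod.val_lt _
    rw [hc, hd] at h3
    exact Nat.lt_of_mul_lt_mul_left h3
  rw [hmr, hcr]
  have hlt : ∀ j ∈ range r, c + j * d < m := by
    intro j hj
    rw [mem_range] at hj
    rw [hd]
    calc c + j * d < d + j * d := by omega
      _ = (j + 1) * d := by ring
      _ ≤ r * d := Nat.mul_le_mul_right _ hj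
  refine ⟨?_, hlt⟩
  intro i hi j hj hij
  have h1 := hlt i hi
  have h2 := hlt j hj
  have h3 : ((c + i * d : ℕ) : ZMod m) = ((c + j * d : ℕ) : ZMod m) := hij
  rw [ZMod.natCast_eq_natCast_iff'] at h3
  rw [Nat.mod_eq_of_lt h1, Nat.mod_eq_of_lt h2] at h3
  have h4 : i * d = j * d := by omega
  exact Nat.eq_of_mul_eq_mul_right hd0 h4

theorem fib_card {r : ℕ} (hr : 0 < r) (hrm : r ∣ m) (x : ZMod m) : (fib m r (r * x)).card = r := by
  rw [fib_eq hr hrm, card_image_of_injOn (fib_injOn hr hrm x).1, card_range]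

/-- the sum of the representatives of a fibre -/
theorem fib_sum {r : ℕ} (hr : 0 < r) (hrm : r ∣ m) (x : ZMod m) :
    2 * ∑ z ∈ fib m r (r * x), z.val = 2 * ((r : ZMod m) * x).val + m * (r - 1) := by
  rw [fib_eq hr hrm, sum_image (fib_injOn hr hrm x).1]
  have h1 : ∀ j ∈ range r, (((((r : ZMod m) * x).val / r + j * (m / r) : ℕ)) : ZMod m).val =
      ((r : ZMod m) * x).val / r + j * (m / r) := by
    intro j hj
    rw [ZMod.val_natCast, Nat.mod_eq_of_lt ((fib_injOn hr hrm x).2 j hj)]
  rw [sum_congr rfl h1, sum_add_distrib, sum_const, card_range, smul_eq_mul, ← sum_mul,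
    Nat.mul_div_cancel' (dvd_val hrm x), mul_add, ← mul_assoc, mul_comm 2 (∑ i ∈ range r, i),
    Finset.sum_range_id_mul_two]
  congr 1
  have h2 : r * (m / r) = m := Nat.mul_div_cancel' hrm
  calc r * (r - 1) * (m / r) = r * (m / r) * (r - 1) := by ring
    _ = _ := by rw [h2]

/-! ### invariants of the members of `Gen` -/

theorem half_ne (hr2 : 2 ∣ m) : ((m / 2 : ℕ) : ZMod m) ≠ 0 := by
  have hm0 : 0 < m := Nat.pos_of_ne_zero (NeZero.ne m)
  rw [Ne, ZMod.natCast_eq_zero_iff]
  intro h
  obtain ⟨d, hd⟩ := hr2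
  have h1 : m / 2 = d := by omega
  rw [h1] at h
  have := Nat.le_of_dvd (by omega) h
  omega

theorem half_neg (hr2 : 2 ∣ m) : -((m / 2 : ℕ) : ZMod m) = ((m / 2 : ℕ) : ZMod m) := by
  rw [neg_eq_iff_add_eq_zero, ← Nat.cast_add, ZMod.natCast_eq_zero_iff]
  obtain ⟨d, hd⟩ := hr2
  have h1 : m / 2 = d := by omega
  rw [h1, hd]
  exact ⟨1, by ring⟩

/-- Elements of `Gen` do not contain zero, have even cardinality and sum zero. -/
theorem Gen.basic (hp : IsUnit (p : ZMod m)) {S : Multiset (ZMod m)} (h : Gen p m S) :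
    (0 : ZMod m) ∉ S ∧ Even S.card ∧ S.sum = 0 := by
  induction h with
  | pair x hx =>
    refine ⟨?_, by simp, by simp⟩
    simp only [Multiset.insert_eq_cons, Multiset.mem_cons, Multiset.mem_singleton, not_or]
    refine ⟨hx.symm, ?_⟩
    intro h
    rw [eq_comm, neg_eq_zero] at h
    exact hx h
  | graph x y z hx hy hz h =>
    have h1 : ∀ u : ZMod m, u ≠ 0 → (0 : ZMod m) ≠ -(p * u) := by
      intro u hu h2
      have h3 : (p : ZMod m) * u = 0 := by
        rw [eq_comm, neg_eq_zero] at h2
        exact h2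
      exact hu ((hp.mul_right_eq_zero).1 h3)
    refine ⟨?_, ?_, ?_⟩
    · simp only [Multiset.insert_eq_cons, Multiset.mem_cons, Multiset.mem_singleton, not_or]
      exact ⟨hx.symm, hy.symm, hz.symm, h1 x hx, h1 y hy, h1 z hz⟩
    · simp only [Multiset.insert_eq_cons, Multiset.card_cons, Multiset.card_singleton]
      decide
    · simp only [Multiset.insert_eq_cons, Multiset.sum_cons, Multiset.sum_singleton]
      linear_combination (1 - (p : ZMod m)) * h
  | standard r hr hrm x hx =>
    have hc := fib_card (m := m) hr.pos hrm x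
    have hs := fib_sum (m := m) hr.pos hrm x
    change 0 ∉ (fib m r (r * x)).val + _ + _ ∧ Even (Multiset.card ((fib m r (r * x)).val + _ + _)) ∧
      ((fib m r (r * x)).val + _ + _).sum = 0
    have hsum : ∑ z ∈ fib m r (r * x), z = ((∑ z ∈ fib m r (r * x), z.val : ℕ) : ZMod m) := by
      push_cast
      exact sum_congr rfl fun z _ => (ZMod.natCast_zmod_val z).symm
    have hsv : (fib m r (r * x)).val.sum = ∑ z ∈ fib m r (r * x), z := by
      rw [Finset.sum, Multiset.map_id']
    by_cases h2 : r = 2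
    · subst h2
      rw [if_pos rfl]
      refine ⟨?_, ?_, ?_⟩
      · rw [Multiset.mem_add, Multiset.mem_add, not_or, not_or, Finset.mem_val, mem_fib,
          Multiset.mem_singleton, Multiset.mem_singleton, mul_zero]
        refine ⟨⟨hx.symm, ?_⟩, (half_ne hrm).symm⟩
        intro h
        rw [eq_comm, neg_eq_zero] at h
        exact hx h
      · rw [Multiset.card_add, Multiset.card_add, Multiset.card_singleton, Multiset.card_singleton,
          Finset.card_val, hc]
        decide
      · rw [Multiset.sum_add, Multiset.sum_add, Multiset.sum_singleton, Multiset.sum_singleton, hsv,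
          hsum]
        have h3 : ∑ z ∈ fib m 2 ((2 : ℕ) * x), z.val = ((2 : ℕ) * x : ZMod m).val + m / 2 := by
          omega
        rw [h3]
        push_cast
        rw [ZMod.natCast_zmod_val]
        have h4 : ((m / 2 : ℕ) : ZMod m) + ((m / 2 : ℕ) : ZMod m) = 0 := by
          have := half_neg hrm
          rw [neg_eq_iff_add_eq_zero] at this
          exact this
        push_cast at h4
        linear_combination h4
    · rw [if_neg h2, add_zero]
      obtain ⟨k, hk⟩ := hr.odd_of_ne_two h2
      refine ⟨?_, ?_, ?_⟩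
      · rw [Multiset.mem_add, not_or, Finset.mem_val, mem_fib,
          Multiset.mem_singleton, mul_zero]
        refine ⟨hx.symm, ?_⟩
        intro h
        rw [eq_comm, neg_eq_zero] at h
        exact hx h
      · rw [Multiset.card_add, Multiset.card_singleton, Finset.card_val, hc, hk]
        exact ⟨k + 1, by ring⟩
      · rw [Multiset.sum_add, Multiset.sum_singleton, hsv, hsum]
        have h3 : ∑ z ∈ fib m r (r * x), z.val = ((r : ZMod m) * x).val + m * k := by
          have : m * (r - 1) = 2 * (m * k) := by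
            rw [hk]; simp only [Nat.add_sub_cancel]; ring
          omega
        rw [h3]
        push_cast
        rw [ZMod.natCast_zmod_val]
        simp
  | join S T _ _ ihS ihT =>
    refine ⟨?_, ?_, ?_⟩
    · rw [Multiset.mem_add, not_or]
      exact ⟨ihS.1, ihT.1⟩
    · rw [Multiset.card_add]
      exact ihS.2.1.add ihT.2.1
    · rw [Multiset.sum_add, ihS.2.2, ihT.2.2, add_zero]
  | cancel S x hx _ ih =>
    refine ⟨?_, ?_, ?_⟩
    · intro h
      exact ih.1 (Multiset.mem_add.2 (Or.inl h))
    · have h1 := ih.2.1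
      rw [Multiset.card_add] at h1
      simpa [parity_simps] using h1
    · have h1 := ih.2.2
      rw [Multiset.sum_add] at h1
      simpa using h1

end

end Pool.Agent.Helper9.Fermat
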