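import Pool.Agent.Helper9.Fermat.GenA

/-! The group attached to the system `Gen`. -/

set_option autoImplicit false

namespace Pool.Agent.Helper9.Fermat

open Finset

noncomputable section

variable {p m : ℕ} [NeZero m]

/-! ### `Gen` is closed under negation -/

theorem fib_neg (r : ℕ) (y : ZMod m) :
    (fib m r y).val.map (fun z => -z) = (fib m r (-y)).val := by
  have h : fib m r (-y) = (fib m r y).map (Equiv.neg (ZMod m)).toEmbedding := by
    ext z
    rw [mem_fib, Finset.mem_map]
    constructor
    · intro hz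
      refine ⟨-z, ?_, ?_⟩
      · rw [mem_fib, mul_neg, hz, neg_neg]
      · simp
    · rintro ⟨w, hw, rfl⟩
      rw [mem_fib] at hw
      simp [hw]
  rw [h, Finset.map_val]
  rfl

theorem Gen.neg {S : Multiset (ZMod m)} (h : Gen p m S) : Gen p m (S.map fun z => -z) := by
  induction h with
  | pair x hx =>
    have h := Gen.pair (p := p) (-x) (neg_ne_zero.2 hx)
    simpa using h
  | graph x y z hx hy hz h =>
    have h := Gen.graph (p := p) (-x) (-y) (-z) (neg_ne_zero.2 hx) (neg_ne_zero.2 hy)
      (neg_ne_zero.2 hz) (by linear_combination -h)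
    simpa using h
  | standard r hr hrm x hx =>
    have h := Gen.standard (p := p) r hr hrm (-x) (by rw [mul_neg]; exact neg_ne_zero.2 hx)
    change Gen p m ((fib m r (r * -x)).val + _ + _) at h
    change Gen p m (((fib m r (r * x)).val + _ + _).map _)
    have h5 : fib m r (-(r * x)) = fib m r (r * -x) := by rw [mul_neg]
    rw [Multiset.map_add, Multiset.map_add, fib_neg, h5]
    have h3 : Multiset.map (fun z : ZMod m => -z) {-(r * x)} = {-(r * -x)} := by simp
    have h4 : Multiset.map (fun z : ZMod m => -z) (if r = 2 then {((m / 2 : ℕ) : ZMod m)} else 0) =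
        (if r = 2 then {((m / 2 : ℕ) : ZMod m)} else 0) := by
      by_cases h2 : r = 2
      · subst h2
        rw [if_pos rfl, Multiset.map_singleton, half_neg hrm]
      · rw [if_neg h2, Multiset.map_zero]
    rw [h3, h4]
    exact h
  | join S T _ _ ihS ihT =>
    rw [Multiset.map_add]
    exact Gen.join _ _ ihS ihT
  | cancel S x hx _ ih =>
    refine Gen.cancel _ (-x) (neg_ne_zero.2 hx) ?_
    rw [Multiset.map_add] at ih
    simpa using ih

theorem Gen.cancel_all (T : Multiset (ZMod m)) (h0 : (0 : ZMod m) ∉ T) (S : Multiset (ZMod m))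
    (h : Gen p m (S + (T + T.map fun z => -z))) : Gen p m S := by
  induction T using Multiset.induction_on with
  | empty => simpa using h
  | cons x T ih =>
    have hx : x ≠ 0 := by
      rintro rfl
      exact h0 (Multiset.mem_cons_self _ _)
    refine ih (fun h1 => h0 (Multiset.mem_cons_of_mem h1)) ?_
    refine Gen.cancel _ x hx ?_
    have h1 : S + (T + T.map fun z => -z) + {x, -x} =
        S + ((x ::ₘ T) + (x ::ₘ T).map fun z => -z) := by
      rw [Multiset.map_cons, Multiset.insert_eq_cons, ← Multiset.singleton_add x {-x},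
        ← Multiset.singleton_add x T, ← Multiset.singleton_add (-x) (T.map _)]
      abel
    rw [h1]
    exact h

theorem Gen.zero (hm : 1 < m) : Gen p m 0 := by
  haveI : Fact (1 < m) := ⟨hm⟩
  refine Gen.cancel 0 1 one_ne_zero ?_
  rw [zero_add]
  exact Gen.pair 1 one_ne_zero

/-! ### the group -/

/-- the multiplicity function of a multiset -/
def cnt (S : Multiset (ZMod m)) : ZMod m → ℤ := fun x => (S.count x : ℤ)

theorem cnt_add (S T : Multiset (ZMod m)) : cnt (S + T) = cnt S + cnt T := by
  funext x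
  simp [cnt]

theorem cnt_zero : cnt (0 : Multiset (ZMod m)) = 0 := by
  funext x
  simp [cnt]

theorem cnt_singleton (x : ZMod m) : cnt ({x} : Multiset (ZMod m)) = Pi.single x 1 := by
  funext y
  simp only [cnt, Multiset.count_singleton, Pi.single_apply]
  split_ifs <;> simp

theorem cnt_eq (S : Multiset (ZMod m)) :
    cnt S = (S.map fun x => (Pi.single x 1 : ZMod m → ℤ)).sum := by
  induction S using Multiset.induction_on with
  | empty => simp [cnt_zero]
  | cons x T ih =>
    rw [← Multiset.singleton_add, cnt_add, ih, cnt_singleton, Multiset.map_add, Multiset.sum_add]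
    simp

/-- the subgroup generated by the members of `Gen` and the class of `0` -/
def subA (p m : ℕ) [NeZero m] : AddSubgroup (ZMod m → ℤ) :=
  AddSubgroup.closure ({f | ∃ S, Gen p m S ∧ f = cnt S} ∪ {Pi.single 0 1})

theorem cnt_mem {S : Multiset (ZMod m)} (h : Gen p m S) : cnt S ∈ subA p m :=
  AddSubgroup.subset_closure (Or.inl ⟨S, h, rfl⟩)

theorem exists_of_mem (hm : 1 < m) {f : ZMod m → ℤ} (hf : f ∈ subA p m) :
    ∃ S T : Multiset (ZMod m), Gen p m S ∧ Gen p m T ∧ ∃ n : ℤ,
      f = cnt S - cnt T + n • Pi.single (0 : ZMod m) 1 := by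
  induction hf using AddSubgroup.closure_induction with
  | mem x hx =>
    rcases hx with ⟨S, hS, rfl⟩ | hx
    · exact ⟨S, 0, hS, Gen.zero hm, 0, by rw [cnt_zero]; simp⟩
    · rw [Set.mem_singleton_iff] at hx
      exact ⟨0, 0, Gen.zero hm, Gen.zero hm, 1, by rw [hx]; simp⟩
  | zero => exact ⟨0, 0, Gen.zero hm, Gen.zero hm, 0, by simp⟩
  | add x y _ _ ihx ihy =>
    obtain ⟨S, T, hS, hT, n, rfl⟩ := ihx
    obtain ⟨S', T', hS', hT', n', rfl⟩ := ihy
    refine ⟨S + S', T + T', Gen.join _ _ hS hS', Gen.join _ _ hT hT', n + n', ?_⟩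
    rw [cnt_add, cnt_add, add_smul]
    abel
  | neg x _ ih =>
    obtain ⟨S, T, hS, hT, n, rfl⟩ := ih
    refine ⟨T, S, hT, hS, -n, ?_⟩
    rw [neg_smul]
    abel

/-- A multiset without zero whose multiplicity function is in the group is a member of `Gen`. -/
theorem gen_of_mem (hm : 1 < m) (hp : IsUnit (p : ZMod m)) {S : Multiset (ZMod m)}
    (h0 : (0 : ZMod m) ∉ S) (h : cnt S ∈ subA p m) : Gen p m S := by
  obtain ⟨S1, S2, h1, h2, n, hn⟩ := exists_of_mem hm h
  have h3 : n = 0 := by
    have h4 := congrFun hn 0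
    have h5 : cnt S1 (0 : ZMod m) = 0 := by
      simp only [cnt]
      rw [Multiset.count_eq_zero_of_notMem (h1.basic hp).1]
      rfl
    have h6 : cnt S2 (0 : ZMod m) = 0 := by
      simp only [cnt]
      rw [Multiset.count_eq_zero_of_notMem (h2.basic hp).1]
      rfl
    have h7 : cnt S (0 : ZMod m) = 0 := by
      simp only [cnt]
      rw [Multiset.count_eq_zero_of_notMem h0]
      rfl
    simp only [Pi.add_apply, Pi.sub_apply, Pi.smul_apply, Pi.single_eq_same, h5, h6, h7] at h4
    simpa using h4.symm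
  subst h3
  have h4 : S + S2 = S1 := by
    ext x
    have h5 := congrFun hn x
    simp only [cnt, Pi.add_apply, Pi.sub_apply, zero_smul, Pi.zero_apply, add_zero] at h5
    rw [Multiset.count_add]
    omega
  refine Gen.cancel_all S2 (h2.basic hp).1 S ?_
  rw [← add_assoc, h4]
  exact Gen.join _ _ h1 h2.neg

/-! ### the quotient -/

/-- the quotient group -/
abbrev QA (p m : ℕ) [NeZero m] := (ZMod m → ℤ) ⧸ subA p m

/-- the class of a generator -/
def ee (p : ℕ) {m : ℕ} [NeZero m] (x : ZMod m) : QA p m :=
  QuotientAddGroup.mk' (subA p m) (Pi.single x 1)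

/-- the class of a multiset -/
def cl (p : ℕ) {m : ℕ} [NeZero m] (S : Multiset (ZMod m)) : QA p m :=
  QuotientAddGroup.mk' (subA p m) (cnt S)

theorem cl_eq (S : Multiset (ZMod m)) : cl p S = (S.map (ee p)).sum := by
  rw [cl, cnt_eq, map_multiset_sum, Multiset.map_map]
  rfl

theorem cl_eq_zero {S : Multiset (ZMod m)} (h : Gen p m S) : cl p S = 0 := by
  rw [cl, QuotientAddGroup.mk'_apply, QuotientAddGroup.eq_zero_iff]
  exact cnt_mem h

theorem gen_of_cl (hm : 1 < m) (hp : IsUnit (p : ZMod m)) {S : Multiset (ZMod m)}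
    (h0 : (0 : ZMod m) ∉ S) (h : cl p S = 0) : Gen p m S := by
  rw [cl, QuotientAddGroup.mk'_apply, QuotientAddGroup.eq_zero_iff] at h
  exact gen_of_mem hm hp h0 h

theorem ee_zero : ee p (0 : ZMod m) = 0 := by
  rw [ee, QuotientAddGroup.mk'_apply, QuotientAddGroup.eq_zero_iff]
  exact AddSubgroup.subset_closure (Or.inr rfl)

theorem ee_neg (x : ZMod m) : ee p (-x) = - ee p x := by
  by_cases hx : x = 0
  · rw [hx, neg_zero, ee_zero, neg_zero]
  · have h := cl_eq_zero (Gen.pair (p := p) x hx)
    rw [cl_eq] at h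
    simp only [Multiset.insert_eq_cons, Multiset.map_cons, Multiset.map_singleton,
      Multiset.sum_cons, Multiset.sum_singleton] at h
    rw [eq_neg_iff_add_eq_zero, add_comm]
    exact h

/-- the additive homomorphism given by the graphs of Frobenius -/
def gg (p m : ℕ) [NeZero m] : ZMod m →+ QA p m :=
  AddMonoidHom.mk' (fun x => ee p x - ee p ((p : ZMod m) * x)) (by
    intro x y
    have key : ∀ x y z : ZMod m, x ≠ 0 → y ≠ 0 → z ≠ 0 → x + y + z = 0 →
        (ee p x - ee p ((p : ZMod m) * x)) + (ee p y - ee p ((p : ZMod m) * y)) +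
          (ee p z - ee p ((p : ZMod m) * z)) = 0 := by
      intro x y z hx hy hz h
      have h1 := cl_eq_zero (Gen.graph (p := p) x y z hx hy hz h)
      rw [cl_eq] at h1
      simp only [Multiset.insert_eq_cons, Multiset.map_cons, Multiset.map_singleton,
        Multiset.sum_cons, Multiset.sum_singleton, ee_neg] at h1
      rw [← h1]
      abel
    by_cases hx : x = 0
    · subst hx
      rw [zero_add, mul_zero, ee_zero]
      abel
    by_cases hy : y = 0
    · subst hy
      rw [add_zero, mul_zero, ee_zero]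
      abel
    by_cases hz : x + y = 0
    · have h1 : y = -x := by linear_combination hz
      rw [h1, mul_neg, ee_neg, ee_neg, add_neg_cancel, mul_zero, ee_zero]
      abel
    have h1 := key x y (-(x + y)) hx hy (neg_ne_zero.2 hz) (by ring)
    rw [mul_neg, ee_neg, ee_neg] at h1
    rw [← sub_eq_zero, ← neg_eq_zero, ← h1]
    abel)

theorem gg_apply (x : ZMod m) : gg p m x = ee p x - ee p ((p : ZMod m) * x) := rfl

/-- the distribution relation -/
theorem ee_dist {r : ℕ} (hr : r.Prime) (hrm : r ∣ m) (x : ZMod m) (hx : (r : ZMod m) * x ≠ 0) :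
    ee p ((r : ZMod m) * x) = ∑ z ∈ fib m r (r * x), ee p z +
      (if r = 2 then ee p ((m / 2 : ℕ) : ZMod m) else 0) := by
  have h := cl_eq_zero (Gen.standard (p := p) r hr hrm x hx)
  change cl p ((fib m r (r * x)).val + _ + _) = 0 at h
  rw [cl_eq, Multiset.map_add, Multiset.map_add, Multiset.sum_add, Multiset.sum_add,
    Multiset.map_singleton, Multiset.sum_singleton, ee_neg] at h
  have h2 : (Multiset.map (ee p) (if r = 2 then {((m / 2 : ℕ) : ZMod m)} else 0)).sum =
      (if r = 2 then ee p ((m / 2 : ℕ) : ZMod m) else 0) := by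
    by_cases h2 : r = 2
    · rw [if_pos h2, if_pos h2, Multiset.map_singleton, Multiset.sum_singleton]
    · rw [if_neg h2, if_neg h2, Multiset.map_zero, Multiset.sum_zero]
  rw [h2] at h
  rw [← sub_eq_zero, ← neg_eq_zero]
  refine Eq.trans ?_ h
  rw [Finset.sum]
  abel

/-! ### homomorphisms on the quotient -/

/-- the additive extension of a function -/
def ext {M : Type*} [AddCommGroup M] (w : ZMod m → M) : (ZMod m → ℤ) →+ M where
  toFun f := ∑ x, f x • w x
  map_zero' := by simp
  map_add' f g := by simp [add_smul, sum_add_distrib]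

theorem ext_single {M : Type*} [AddCommGroup M] (w : ZMod m → M) (x : ZMod m) :
    ext w (Pi.single x 1) = w x := by
  change ∑ y, (Pi.single x 1 : ZMod m → ℤ) y • w y = w x
  rw [Finset.sum_eq_single x]
  · simp
  · intro y _ hy
    rw [Pi.single_eq_of_ne hy, zero_smul]
  · intro h
    exact absurd (mem_univ x) h

theorem ext_cnt {M : Type*} [AddCommGroup M] (w : ZMod m → M) (S : Multiset (ZMod m)) :
    ext w (cnt S) = (S.map w).sum := by
  rw [cnt_eq, map_multiset_sum, Multiset.map_map]
  congr 1
  refine Multiset.map_congr rfl fun x _ => ?_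
  exact ext_single w x

theorem ext_ker {M : Type*} [AddCommGroup M] (w : ZMod m → M) (h0 : w 0 = 0)
    (h : ∀ S, Gen p m S → (S.map w).sum = 0) : subA p m ≤ (ext w).ker := by
  rw [subA, AddSubgroup.closure_le]
  rintro f (⟨S, hS, rfl⟩ | hf)
  · change ext w (cnt S) = 0
    rw [ext_cnt, h S hS]
  · rw [Set.mem_singleton_iff] at hf
    change ext w f = 0
    rw [hf, ext_single, h0]

theorem cancel_sum {M : Type*} [AddCommGroup M] (w : ZMod m → M)
    (hpair : ∀ x, w (-x) = - w x)
    (hgraph : ∀ x y z, x ≠ 0 → y ≠ 0 → z ≠ 0 → x + y + z = 0 →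
      w x + w y + w z - w (p * x) - w (p * y) - w (p * z) = 0)
    (hstd : ∀ r : ℕ, r.Prime → r ∣ m → ∀ x, (r : ZMod m) * x ≠ 0 →
      ∑ z ∈ fib m r (r * x), w z - w (r * x) +
        (if r = 2 then w ((m / 2 : ℕ) : ZMod m) else 0) = 0)
    (S : Multiset (ZMod m)) (hS : Gen p m S) : (S.map w).sum = 0 := by
  induction hS with
  | pair x hx =>
    simp [hpair]
  | graph x y z hx hy hz h =>
    have h1 := hgraph x y z hx hy hz h
    simp only [Multiset.insert_eq_cons, Multiset.map_cons, Multiset.map_singleton,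
        Multiset.sum_cons, Multiset.sum_singleton, hpair]
    rw [← h1]
    abel
  | standard r hr hrm x hx =>
    have h1 := hstd r hr hrm x hx
    change (Multiset.map w ((fib m r (r * x)).val + _ + _)).sum = 0
    rw [Multiset.map_add, Multiset.map_add, Multiset.sum_add, Multiset.sum_add,
      Multiset.map_singleton, Multiset.sum_singleton, hpair]
    have h2 : (Multiset.map w (if r = 2 then {((m / 2 : ℕ) : ZMod m)} else 0)).sum =
        (if r = 2 then w ((m / 2 : ℕ) : ZMod m) else 0) := by
      by_cases h2 : r = 2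
      · rw [if_pos h2, if_pos h2, Multiset.map_singleton, Multiset.sum_singleton]
      · rw [if_neg h2, if_neg h2, Multiset.map_zero, Multiset.sum_zero]
    rw [h2]
    refine Eq.trans ?_ h1
    rw [Finset.sum]
    abel
  | join S T _ _ ihS ihT => rw [Multiset.map_add, Multiset.sum_add, ihS, ihT, add_zero]
  | cancel S x hx _ ih =>
    rw [Multiset.map_add, Multiset.sum_add] at ih
    simpa [hpair] using ih

end

end Pool.Agent.Helper9.Fermat
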