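import Pool.Agent.Helper52.Fermat.Saw3

set_option autoImplicit false

/-!
# Injectivity of the sawtooth convolution on odd functions, prime power level
-/

namespace Pool.Agent.Helper9.Fermat

open Finset

namespace SawAux

open Pool.Agent.Helper52.Fermat Pool.Agent.Helper29.Rohr

variable {m : ℕ} [NeZero m]

/-- `∑_u χ(u) (2u - m)` over the units -/
noncomputable def BU (χ : DirichletCharacter ℂ m) : ℂ :=
  ∑ t : (ZMod m)ˣ, χ (t : ZMod m) * ((2 * ((t : ZMod m).val : ℤ) - m : ℤ) : ℂ)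

lemma BU_eq (χ : DirichletCharacter ℂ m) : BU χ = 2 * m * B1 χ := by
  have h : BU χ = ∑ x : ZMod m, χ x * ((2 * (x.val : ℤ) - m : ℤ) : ℂ) := by
    unfold BU
    refine Fintype.sum_of_injective (fun t : (ZMod m)ˣ => (t : ZMod m)) Units.val_injective _ _
      (fun x hx => ?_) fun _ => rfl
    have : ¬ IsUnit x := fun ⟨u, hu⟩ => hx ⟨u, hu⟩
    rw [MulChar.map_nonunit _ this, zero_mul]
  have hm0 : (m : ℂ) ≠ 0 := D_ne
  rw [h, B1, mul_sum]
  refine sum_congr rfl fun x _ => ?_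
  unfold saw
  push_cast
  field_simp

lemma BU_ne (hm : IsPrimePow m) {χ : DirichletCharacter ℂ m} (ho : χ.Odd) : BU χ ≠ 0 := by
  have hm0 : (m : ℂ) ≠ 0 := D_ne
  rw [BU_eq]
  exact mul_ne_zero (mul_ne_zero two_ne_zero hm0) (B1_ne hm ho)

/-- a function on the units all of whose character sums vanish is zero -/
lemma zero_of_char (b : (ZMod m)ˣ → ℂ)
    (h : ∀ χ : DirichletCharacter ℂ m, ∑ v : (ZMod m)ˣ, χ (v : ZMod m) * b v = 0)
    (u : (ZMod m)ˣ) : b u = 0 := by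
  have h1 : ∑ v : (ZMod m)ˣ, b v * ∑ χ : DirichletCharacter ℂ m,
      χ ((u : ZMod m))⁻¹ * χ (v : ZMod m) = 0 := by
    have : ∑ v : (ZMod m)ˣ, b v * ∑ χ : DirichletCharacter ℂ m,
        χ ((u : ZMod m))⁻¹ * χ (v : ZMod m) = ∑ χ : DirichletCharacter ℂ m,
        χ ((u : ZMod m))⁻¹ * ∑ v : (ZMod m)ˣ, χ (v : ZMod m) * b v := by
      simp_rw [mul_sum]
      rw [sum_comm]
      refine sum_congr rfl fun χ _ => sum_congr rfl fun v _ => ?_
      ring
    rw [this]
    exact sum_eq_zero fun χ _ => by rw [h, mul_zero]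
  have h2 : ∀ v : (ZMod m)ˣ, b v * ∑ χ : DirichletCharacter ℂ m,
      χ ((u : ZMod m))⁻¹ * χ (v : ZMod m) = if u = v then b v * (m.totient : ℂ) else 0 := by
    intro v
    rw [DirichletCharacter.sum_char_inv_mul_char_eq ℂ u.isUnit, mul_ite, mul_zero]
    by_cases huv : u = v
    · rw [if_pos huv, if_pos (congrArg _ huv)]
    · rw [if_neg huv, if_neg (fun h => huv (Units.val_injective h))]
  rw [sum_congr rfl fun v _ => h2 v, sum_ite_eq, if_pos (mem_univ u)] at h1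
  refine (mul_eq_zero.1 h1).resolve_right ?_
  exact_mod_cast (Nat.totient_pos.2 (Nat.pos_of_ne_zero (NeZero.ne m))).ne'

omit [NeZero m] in
lemma char_inv (χ : DirichletCharacter ℂ m) (u : (ZMod m)ˣ) :
    χ ((u⁻¹ : (ZMod m)ˣ) : ZMod m) = (χ (u : ZMod m))⁻¹ := by
  refine eq_inv_of_mul_eq_one_left ?_
  rw [← map_mul, ← Units.val_mul, inv_mul_cancel, Units.val_one, map_one]

omit [NeZero m] in
lemma char_unit_ne (χ : DirichletCharacter ℂ m) (u : (ZMod m)ˣ) : χ (u : ZMod m) ≠ 0 :=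
  (u.isUnit.map χ).ne_zero

omit [NeZero m] in
lemma char_pow (χ : DirichletCharacter ℂ m) (u : (ZMod m)ˣ) (i : ℕ) :
    χ ((u ^ i : (ZMod m)ˣ) : ZMod m) = (χ (u : ZMod m)) ^ i := by
  rw [Units.val_pow_eq_pow_val, map_pow]

omit [NeZero m] in
lemma char_mul (χ : DirichletCharacter ℂ m) (u v : (ZMod m)ˣ) :
    χ ((u * v : (ZMod m)ˣ) : ZMod m) = χ (u : ZMod m) * χ (v : ZMod m) := by
  rw [Units.val_mul, map_mul]

/-- translation -/
lemma char_trans (χ : DirichletCharacter ℂ m) (c : (ZMod m)ˣ) (f : (ZMod m)ˣ → ℂ) :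
    ∑ t : (ZMod m)ˣ, χ (t : ZMod m) * f (t * c) =
      (χ (c : ZMod m))⁻¹ * ∑ t : (ZMod m)ˣ, χ (t : ZMod m) * f t := by
  rw [← Equiv.sum_comp (Equiv.mulRight c) (fun t : (ZMod m)ˣ => χ (t : ZMod m) * f t), mul_sum]
  refine sum_congr rfl fun t _ => ?_
  rw [Equiv.coe_mulRight, char_mul]
  have := char_unit_ne χ c
  field_simp

end SawAux

open SawAux Pool.Agent.Helper52.Fermat in
/-- nonvanishing of the generalised Bernoulli numbers `B_{1,χ}` for odd characters of prime power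
level, in the form used for Tate classes on Fermat varieties -/
theorem saw_inj (m : ℕ) [NeZero m] (hm : IsPrimePow m) (g : (ZMod m)ˣ) (F : ℕ) (hg : g ^ F = 1)
    (β : (ZMod m)ˣ → ℤ) (hodd : ∀ u, β (-u) = - β u)
    (h : ∀ t : (ZMod m)ˣ, ∑ u : (ZMod m)ˣ, β u * ∑ i ∈ range F,
      (2 * (((t * g ^ i * u : (ZMod m)ˣ) : ZMod m).val : ℤ) - m) = 0) :
    ∀ u, ∑ i ∈ range F, β (g ^ i * u) = 0 := by
  intro u
  suffices hs : ((∑ i ∈ range F, β (g ^ i * u) : ℤ) : ℂ) = 0 by exact_mod_cast hs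
  refine zero_of_char (fun u => ((∑ i ∈ range F, β (g ^ i * u) : ℤ) : ℂ)) (fun χ => ?_) u
  -- the transform of the orbit sum
  have e1 : ∑ v : (ZMod m)ˣ, χ (v : ZMod m) * ((∑ i ∈ range F, β (g ^ i * v) : ℤ) : ℂ) =
      (∑ i ∈ range F, ((χ (g : ZMod m))⁻¹) ^ i) *
        ∑ w : (ZMod m)ˣ, χ (w : ZMod m) * ((β w : ℤ) : ℂ) := by
    rw [sum_mul]
    have : ∀ i, ((χ (g : ZMod m))⁻¹) ^ i * ∑ w : (ZMod m)ˣ, χ (w : ZMod m) * ((β w : ℤ) : ℂ) =
        ∑ v : (ZMod m)ˣ, χ (v : ZMod m) * ((β (g ^ i * v) : ℤ) : ℂ) := by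
      intro i
      have := char_trans χ (g ^ i) (fun v => ((β v : ℤ) : ℂ))
      rw [char_pow, ← inv_pow] at this
      rw [← this]
      exact sum_congr rfl fun v _ => by rw [mul_comm v]
    simp_rw [this]
    rw [sum_comm]
    refine sum_congr rfl fun v _ => ?_
    rw [← mul_sum]
    push_cast
    rfl
  rw [e1]
  rcases χ.even_or_odd with he | ho
  · -- even characters
    have : ∑ w : (ZMod m)ˣ, χ (w : ZMod m) * ((β w : ℤ) : ℂ) = 0 := by
      have h1 : ∑ w : (ZMod m)ˣ, χ (w : ZMod m) * ((β w : ℤ) : ℂ) =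
          - ∑ w : (ZMod m)ˣ, χ (w : ZMod m) * ((β w : ℤ) : ℂ) := by
        conv_lhs => rw [← Equiv.sum_comp (Equiv.neg (ZMod m)ˣ)]
        rw [← sum_neg_distrib]
        refine sum_congr rfl fun w _ => ?_
        rw [Equiv.neg_apply, hodd, Units.val_neg, ← neg_one_mul, map_mul, he]
        push_cast
        ring
      exact self_eq_neg.1 h1
    rw [this, mul_zero]
  · by_cases hχg : χ (g : ZMod m) = 1
    · -- odd characters trivial on `g`
      by_cases hF : F = 0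
      · subst hF; simp
      have hodd' : (χ⁻¹).Odd := by
        rw [DirichletCharacter.Odd, MulChar.inv_apply_eq_inv', ho, inv_neg, inv_one]
      have hB := BU_ne hm hodd'
      have key : (F : ℂ) * BU χ⁻¹ * ∑ w : (ZMod m)ˣ, χ (w : ZMod m) * ((β w : ℤ) : ℂ) = 0 := by
        have h1 : ∑ t : (ZMod m)ˣ, χ⁻¹ (t : ZMod m) * ((∑ u : (ZMod m)ˣ, β u * ∑ i ∈ range F,
            (2 * (((t * g ^ i * u : (ZMod m)ˣ) : ZMod m).val : ℤ) - m) : ℤ) : ℂ) = 0 :=
          sum_eq_zero fun t _ => by rw [h t, Int.cast_zero, mul_zero]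
        rw [← h1]
        have h2 : ∀ (u : (ZMod m)ˣ) (i : ℕ), ∑ t : (ZMod m)ˣ, χ⁻¹ (t : ZMod m) *
            ((2 * (((t * g ^ i * u : (ZMod m)ˣ) : ZMod m).val : ℤ) - m : ℤ) : ℂ) =
            χ (u : ZMod m) * BU χ⁻¹ := by
          intro u i
          have := char_trans χ⁻¹ (g ^ i * u)
            (fun t => ((2 * ((t : ZMod m).val : ℤ) - m : ℤ) : ℂ))
          rw [char_mul, char_pow, MulChar.inv_apply_eq_inv', MulChar.inv_apply_eq_inv', hχg,
            inv_one, one_pow, one_mul, inv_inv] at this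
          rw [BU, ← this]
          exact sum_congr rfl fun t _ => by rw [mul_assoc]
        have h3 : ∑ t : (ZMod m)ˣ, χ⁻¹ (t : ZMod m) * ((∑ u : (ZMod m)ˣ, β u * ∑ i ∈ range F,
            (2 * (((t * g ^ i * u : (ZMod m)ˣ) : ZMod m).val : ℤ) - m) : ℤ) : ℂ) =
            ∑ u : (ZMod m)ˣ, ((β u : ℤ) : ℂ) * ∑ i ∈ range F, ∑ t : (ZMod m)ˣ,
              χ⁻¹ (t : ZMod m) *
              ((2 * (((t * g ^ i * u : (ZMod m)ˣ) : ZMod m).val : ℤ) - m : ℤ) : ℂ) := by
          simp_rw [Int.cast_sum, Int.cast_mul, Int.cast_sum, mul_sum]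
          rw [sum_comm]
          refine sum_congr rfl fun u _ => ?_
          rw [sum_comm]
          refine sum_congr rfl fun i _ => sum_congr rfl fun t _ => ?_
          ring
        rw [h3]
        simp_rw [h2]
        rw [mul_sum]
        refine sum_congr rfl fun u _ => ?_
        rw [sum_const, card_range, nsmul_eq_mul]
        ring
      have hF' : (F : ℂ) ≠ 0 := Nat.cast_ne_zero.2 hF
      rw [(mul_eq_zero.1 key).resolve_left (mul_ne_zero hF' hB), mul_zero]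
    · -- geometric sum
      have h1 : ((χ (g : ZMod m))⁻¹) ^ F = 1 := by
        rw [inv_pow, ← char_pow, hg, Units.val_one, map_one, inv_one]
      have h2 : (χ (g : ZMod m))⁻¹ - 1 ≠ 0 := by
        intro h0
        rw [sub_eq_zero] at h0
        exact hχg (by rw [← inv_inv (χ (g : ZMod m)), h0, inv_one])
      have h3 := mul_geom_sum ((χ (g : ZMod m))⁻¹) F
      rw [h1, sub_self] at h3
      rw [(mul_eq_zero.1 h3).resolve_left h2, zero_mul]

end Pool.Agent.Helper9.Fermat
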