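import Pool.Agent.Helper9.Fermat.GenC
import Pool.Agent.Helper9.Fermat.Coset
import Pool.Agent.Helper9.Fermat.Saw

/-! Tate multisets are members of `Gen`: prime powers and twice prime powers. -/

set_option autoImplicit false

namespace Pool.Agent.Helper9.Fermat

open Finset

noncomputable section

/-! ### the sawtooth function -/

section saw

variable {m : ℕ} [NeZero m]

/-- `m` times twice the odd sawtooth function -/
def sw (y : ZMod m) : ℤ := if y = 0 then 0 else 2 * (y.val : ℤ) - m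

theorem sw_zero : sw (0 : ZMod m) = 0 := if_pos rfl

theorem sw_of_ne {y : ZMod m} (hy : y ≠ 0) : sw y = 2 * (y.val : ℤ) - m := if_neg hy

theorem sw_neg (y : ZMod m) : sw (-y) = - sw y := by
  by_cases hy : y = 0
  · subst hy
    rw [neg_zero, sw_zero, neg_zero]
  · rw [sw_of_ne hy, sw_of_ne (neg_ne_zero.2 hy)]
    have h1 : NeZero y := ⟨hy⟩
    rw [ZMod.val_neg_of_ne_zero, Nat.cast_sub (ZMod.val_lt y).le]
    ring

/-- the sawtooth sum over the orbit of Frobenius -/
def wt (p F : ℕ) (t x : ZMod m) : ℤ := ∑ i ∈ range F, sw ((p : ZMod m) ^ i * (t * x))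

theorem wt_neg (p F : ℕ) (t x : ZMod m) : wt p F t (-x) = - wt p F t x := by
  rw [wt, wt, ← sum_neg_distrib]
  refine sum_congr rfl fun i _ => ?_
  rw [mul_neg, mul_neg, sw_neg]

theorem wt_frob (p F : ℕ) (hF : (p : ZMod m) ^ F = 1) (t x : ZMod m) :
    wt p F t ((p : ZMod m) * x) = wt p F t x := by
  have h1 : ∀ i ∈ range F, sw ((p : ZMod m) ^ i * (t * ((p : ZMod m) * x))) =
      sw ((p : ZMod m) ^ (i + 1) * (t * x)) := by
    intro i _
    congr 1
    ring
  rw [wt, sum_congr rfl h1, wt]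
  have h2 := Finset.sum_range_succ (fun i => sw ((p : ZMod m) ^ i * (t * x))) F
  rw [Finset.sum_range_succ', pow_zero, one_mul, hF, one_mul] at h2
  exact add_right_cancel h2

theorem wt_half (p F : ℕ) (t : ZMod m) (h2 : 2 ∣ m) : wt p F t ((m / 2 : ℕ) : ZMod m) = 0 := by
  have h := wt_neg p F t ((m / 2 : ℕ) : ZMod m)
  rw [half_neg h2] at h
  omega

theorem sw_fib {r : ℕ} (hr : 0 < r) (hrm : r ∣ m) (x : ZMod m) (hx : (r : ZMod m) * x ≠ 0) :
    ∑ z ∈ fib m r (r * x), sw z = sw ((r : ZMod m) * x) := by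
  have h1 : ∀ z ∈ fib m r (r * x), sw z = 2 * (z.val : ℤ) - m := by
    intro z hz
    refine sw_of_ne ?_
    rintro rfl
    rw [mem_fib, mul_zero] at hz
    exact hx hz.symm
  rw [sum_congr rfl h1, sum_sub_distrib, sum_const, fib_card hr hrm, sw_of_ne hx, ← mul_sum]
  have h2 := fib_sum hr hrm x
  have h3 : (2 : ℤ) * ∑ z ∈ fib m r (r * x), (z.val : ℤ) =
      2 * (((r : ZMod m) * x).val : ℤ) + m * (r - 1) := by
    have h4 : ((2 * ∑ z ∈ fib m r (r * x), z.val : ℕ) : ℤ) =
        ((2 * ((r : ZMod m) * x).val + m * (r - 1) : ℕ) : ℤ) := by rw [h2]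
    push_cast [Nat.cast_sub (Nat.one_le_iff_ne_zero.2 hr.ne')] at h4
    exact h4
  rw [h3, nsmul_eq_mul]
  ring

theorem sw_fib_unit {r : ℕ} (hr : 0 < r) (hrm : r ∣ m) (x : ZMod m) (hx : (r : ZMod m) * x ≠ 0)
    (a : ZMod m) (ha : IsUnit a) :
    ∑ z ∈ fib m r (r * x), sw (a * z) = sw (a * ((r : ZMod m) * x)) := by
  have h1 : (r : ZMod m) * (a * x) ≠ 0 := by
    intro h
    apply hx
    have h2 : a * ((r : ZMod m) * x) = 0 := by
      rw [← h]
      ring
    exact (ha.mul_right_eq_zero).1 h2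
  have h2 := sw_fib hr hrm (a * x) h1
  have h3 : a * ((r : ZMod m) * x) = (r : ZMod m) * (a * x) := by ring
  rw [h3, ← h2]
  obtain ⟨v, rfl⟩ := ha
  refine Finset.sum_nbij' (fun z => (v : ZMod m) * z) (fun z => ((v⁻¹ : (ZMod m)ˣ) : ZMod m) * z)
    ?_ ?_ ?_ ?_ ?_
  · intro z hz
    rw [mem_fib] at hz ⊢
    linear_combination (v : ZMod m) * hz
  · intro z hz
    rw [mem_fib] at hz ⊢
    have h4 : ((v⁻¹ : (ZMod m)ˣ) : ZMod m) * (v : ZMod m) = 1 := Units.inv_mul v
    linear_combination ((v⁻¹ : (ZMod m)ˣ) : ZMod m) * hz + (r * x : ZMod m) * h4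
  · intro z _
    exact Units.inv_mul_cancel_left v z
  · intro z _
    exact Units.mul_inv_cancel_left v z
  · intro z _
    rfl

theorem wt_fib {p F r : ℕ} (hr : 0 < r) (hrm : r ∣ m) (x : ZMod m) (hx : (r : ZMod m) * x ≠ 0)
    (hp : IsUnit (p : ZMod m)) (t : ZMod m) (ht : IsUnit t) :
    ∑ z ∈ fib m r (r * x), wt p F t z = wt p F t ((r : ZMod m) * x) := by
  simp only [wt]
  rw [sum_comm]
  refine sum_congr rfl fun i _ => ?_
  have h1 := sw_fib_unit hr hrm x hx ((p : ZMod m) ^ i * t) ((hp.pow i).mul ht)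
  rw [mul_assoc] at h1
  rw [← h1]
  exact sum_congr rfl fun z _ => by rw [mul_assoc]

end saw

/-! ### homomorphisms on the quotient -/

section homs

variable {p m : ℕ} [NeZero m]

/-- the homomorphism on the quotient given by a weight function -/
def lft {M : Type*} [AddCommGroup M] (w : ZMod m → M) (h0 : w 0 = 0)
    (h : ∀ S, Gen p m S → (S.map w).sum = 0) : QA p m →+ M :=
  QuotientAddGroup.lift (subA p m) (ext w) (ext_ker w h0 h)

theorem lft_ee {M : Type*} [AddCommGroup M] (w : ZMod m → M) (h0 : w 0 = 0)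
    (h : ∀ S, Gen p m S → (S.map w).sum = 0) (x : ZMod m) : lft w h0 h (ee p x) = w x :=
  ext_single w x

theorem lft_cl {M : Type*} [AddCommGroup M] (w : ZMod m → M) (h0 : w 0 = 0)
    (h : ∀ S, Gen p m S → (S.map w).sum = 0) (S : Multiset (ZMod m)) :
    lft w h0 h (cl p S) = (S.map w).sum :=
  ext_cnt w S

theorem wt_gen {F : ℕ} (hp : IsUnit (p : ZMod m)) (hF : (p : ZMod m) ^ F = 1) (t : ZMod m)
    (ht : IsUnit t) (S : Multiset (ZMod m)) (hS : Gen p m S) : (S.map (wt p F t)).sum = 0 := by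
  refine cancel_sum _ (wt_neg p F t) ?_ ?_ S hS
  · intro x y z _ _ _ _
    rw [wt_frob p F hF, wt_frob p F hF, wt_frob p F hF]
    ring
  · intro r hr hrm x hx
    rw [wt_fib hr.pos hrm x hx hp t ht]
    by_cases h2 : r = 2
    · subst h2
      rw [if_pos rfl, wt_half p F t hrm]
      ring
    · rw [if_neg h2]
      ring

/-- the parity weight -/
def par (x : ZMod m) : ZMod 2 := if x = 0 then 0 else 1

theorem par_sum (S : Multiset (ZMod m)) (h0 : (0 : ZMod m) ∉ S) :
    (S.map par).sum = (S.card : ZMod 2) := by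
  have h1 : S.map par = S.map fun _ => (1 : ZMod 2) := by
    refine Multiset.map_congr rfl fun x hx => ?_
    refine if_neg ?_
    rintro rfl
    exact h0 hx
  rw [h1, Multiset.map_const', Multiset.sum_replicate, nsmul_eq_mul, mul_one]

theorem par_gen (hp : IsUnit (p : ZMod m)) (S : Multiset (ZMod m)) (hS : Gen p m S) :
    (S.map par).sum = 0 := by
  rw [par_sum S (hS.basic hp).1]
  obtain ⟨k, hk⟩ := (hS.basic hp).2.1
  rw [hk, Nat.cast_add]
  exact CharTwo.add_self_eq_zero _

theorem id_gen (hp : IsUnit (p : ZMod m)) (S : Multiset (ZMod m)) (hS : Gen p m S) :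
    (S.map (fun x => x)).sum = 0 := by
  rw [Multiset.map_id']
  exact (hS.basic hp).2.2

end homs

/-! ### the main algebraic statement -/

theorem exists_of_wt {p c n m : ℕ} [NeZero n] [NeZero m] (hn : IsPrimePow n) (hm : m = c * n)
    (hall : ∀ x : ZMod m, ee p x ∈ genW p c n m)
    (hp : IsUnit (p : ZMod m)) (F : ℕ) (hF : 0 < F) (hpF : (p : ZMod m) ^ F = 1)
    (hneg : ∀ i : ℕ, (p : ZMod n) ^ i ≠ -1) (S : Multiset (ZMod m))
    (hwt : ∀ t : (ZMod m)ˣ, (S.map (wt p F (t : ZMod m))).sum = 0) :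
    ∃ (y : ZMod m) (e : ℤ), (¬ 2 ∣ m → e = 0) ∧
      cl p S = gg p m y + e • ee p ((m / 2 : ℕ) : ZMod m) := by
  have hc := c_pos hm
  have hnm : n ∣ m := Dvd.intro_left c hm.symm
  have hn1 : 1 < n := hn.one_lt
  have hm1 : 1 < m := lt_of_lt_of_le hn1 (Nat.le_of_dvd (Nat.pos_of_ne_zero (NeZero.ne m)) hnm)
  -- the unit `P`
  have hpn : IsUnit (p : ZMod n) := by
    have h := hp.map (ZMod.castHom hnm (ZMod n))
    rwa [map_natCast] at h
  obtain ⟨P, hP⟩ := hpn
  have hPF : P ^ F = 1 := by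
    have h := congrArg (ZMod.castHom hnm (ZMod n)) hpF
    rw [map_pow, map_natCast, map_one, ← hP] at h
    ext
    push_cast
    exact h
  -- the coefficients
  have hcl : cl p S ∈ genW p c n m := by
    rw [cl_eq]
    refine AddSubgroup.multiset_sum_mem _ _ ?_
    intro q hq
    rw [Multiset.mem_map] at hq
    obtain ⟨x, _, rfl⟩ := hq
    exact hall x
  obtain ⟨b, e, he, hbe⟩ := exists_coeff hcl
  -- the sawtooth sums
  set T : (ZMod n)ˣ → (ZMod n)ˣ → ℤ := fun t u => ∑ i ∈ range F,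
    (2 * (((t * P ^ i * u : (ZMod n)ˣ) : ZMod n).val : ℤ) - n) with hT
  have hTneg : ∀ t u, T t (-u) = - T t u := by
    intro t u
    simp only [hT]
    rw [← sum_neg_distrib]
    refine sum_congr rfl fun i _ => ?_
    have h1 : ((t * P ^ i * -u : (ZMod n)ˣ) : ZMod n) = - ((t * P ^ i * u : (ZMod n)ˣ) : ZMod n) := by
      push_cast
      ring
    have h2 : ((t * P ^ i * u : (ZMod n)ˣ) : ZMod n) ≠ 0 := by
      have : Fact (1 < n) := ⟨hn1⟩
      exact (Units.ne_zero _)
    have h3 : NeZero ((t * P ^ i * u : (ZMod n)ˣ) : ZMod n) := ⟨h2⟩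
    rw [h1, ZMod.val_neg_of_ne_zero, Nat.cast_sub (ZMod.val_lt _).le]
    ring
  have hwio : ∀ (t : (ZMod m)ˣ) (u : (ZMod n)ˣ), wt p F (t : ZMod m) (io c n m (u : ZMod n)) =
      c * T (ZMod.unitsMap hnm t) u := by
    intro t u
    simp only [hT]
    rw [wt, mul_sum]
    refine sum_congr rfl fun i _ => ?_
    have h1 : (p : ZMod m) ^ i * ((t : ZMod m) * io c n m (u : ZMod n)) =
        io c n m ((ZMod.unitsMap hnm t * P ^ i * u : (ZMod n)ˣ) : ZMod n) := by
      rw [← mul_assoc, mul_io hm]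
      congr 1
      push_cast
      rw [map_mul, map_pow, map_natCast, ← hP, ZMod.unitsMap_val, ZMod.castHom_apply]
      ring
    have h2 : ((ZMod.unitsMap hnm t * P ^ i * u : (ZMod n)ˣ) : ZMod n) ≠ 0 := by
      have : Fact (1 < n) := ⟨hn1⟩
      exact (Units.ne_zero _)
    have hmz : (m : ℤ) = (c : ℤ) * (n : ℤ) := by exact_mod_cast hm
    rw [h1, sw_of_ne (io_ne_zero hm h2), io_val hm, hmz]
    push_cast
    ring
  -- vanishing of the sums
  have hvan : ∀ t : (ZMod n)ˣ, ∑ u : (ZMod n)ˣ, b u * T t u = 0 := by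
    intro t'
    obtain ⟨t, rfl⟩ := ZMod.unitsMap_surjective hnm t'
    have h1 := congrArg (lft (wt p F (t : ZMod m)) (by simp [wt, sw_zero])
      (wt_gen hp hpF (t : ZMod m) t.isUnit)) hbe
    rw [lft_cl, hwt t, map_add, map_sum, map_zsmul, lft_ee] at h1
    have h2 : e • wt p F (t : ZMod m) ((m / 2 : ℕ) : ZMod m) = 0 := by
      by_cases h2 : 2 ∣ m
      · rw [wt_half p F _ h2, smul_zero]
      · rw [he h2, zero_smul]
    rw [h2, add_zero] at h1
    have h3 : ∀ u ∈ (univ : Finset (ZMod n)ˣ),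
        (lft (wt p F (t : ZMod m)) (by simp [wt, sw_zero])
          (wt_gen hp hpF (t : ZMod m) t.isUnit)) (b u • ee p (io c n m (u : ZMod n))) =
        c * (b u * T (ZMod.unitsMap hnm t) u) := by
      intro u _
      rw [map_zsmul, lft_ee, hwio, smul_eq_mul]
      ring
    rw [sum_congr rfl h3, ← mul_sum] at h1
    have h4 : (c : ℤ) ≠ 0 := by exact_mod_cast hc.ne'
    exact (mul_eq_zero.1 h1.symm).resolve_left h4
  have hsaw := saw_inj n hn P F hPF (fun u => b u - b (-u)) (fun u => by rw [neg_neg]; ring) (by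
    intro t
    have h1 : ∀ u ∈ (univ : Finset (ZMod n)ˣ), (b u - b (-u)) * T t u =
        b u * T t u + b (-u) * T t (-u) := by
      intro u _
      rw [hTneg]
      ring
    change ∑ u : (ZMod n)ˣ, (b u - b (-u)) * T t u = 0
    rw [sum_congr rfl h1, sum_add_distrib, hvan t]
    have h2 := Equiv.sum_comp (Equiv.neg (ZMod n)ˣ) (fun u => b u * T t u)
    simp only [Equiv.neg_apply] at h2
    rw [h2, hvan t, add_zero])
  -- the coset argument
  have hrange : ∑ u, b u • ee p (io c n m (u : ZMod n)) ∈ (gg p m).range := by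
    have h1 := coset_lemma P (-1 : (ZMod n)ˣ) (by rw [neg_mul_neg, one_mul]) (by
      intro h
      rw [← mem_powers_iff_mem_zpowers] at h
      obtain ⟨i, hi⟩ := h
      apply hneg i
      rw [← hP]
      have h2 := congrArg (fun v : (ZMod n)ˣ => (v : ZMod n)) hi
      push_cast at h2
      exact h2) F hF b (by
        intro u
        have h2 := hsaw u
        rw [← h2]
        refine sum_congr rfl fun i _ => ?_
        rw [neg_one_mul])
      (fun u => QuotientAddGroup.mk' (gg p m).range (ee p (io c n m (u : ZMod n)))) (by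
        intro u
        rw [QuotientAddGroup.mk'_apply, QuotientAddGroup.mk'_apply, QuotientAddGroup.eq]
        refine ⟨io c n m (u : ZMod n), ?_⟩
        rw [gg_apply]
        push_cast
        rw [hP, io_mul hm]
        abel) (by
        intro u
        rw [← map_neg, ← ee_neg, ← io_neg hm]
        push_cast
        rw [neg_one_mul])
    have h2 : QuotientAddGroup.mk' (gg p m).range
        (∑ u, b u • ee p (io c n m (u : ZMod n))) = 0 := by
      rw [map_sum, ← h1]
      refine sum_congr rfl fun u _ => ?_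
      have h5 := map_zsmul (QuotientAddGroup.mk' (gg p m).range) (b u)
        (ee p (io c n m (u : ZMod n)))
      exact h5
    rw [QuotientAddGroup.mk'_apply, QuotientAddGroup.eq_zero_iff] at h2
    exact h2
  obtain ⟨y, hy⟩ := hrange
  rw [← hy] at hbe
  exact ⟨y, e, he, hbe⟩

theorem card_even_of_wt {p c n m : ℕ} [NeZero n] [NeZero m] (hn : IsPrimePow n) (hm : m = c * n)
    (hall : ∀ x : ZMod m, ee p x ∈ genW p c n m)
    (hp : IsUnit (p : ZMod m)) (F : ℕ) (hF : 0 < F) (hpF : (p : ZMod m) ^ F = 1)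
    (hneg : ∀ i : ℕ, (p : ZMod n) ^ i ≠ -1) (S : Multiset (ZMod m)) (h0 : (0 : ZMod m) ∉ S)
    (hsum : S.sum = 0) (hodd : Odd n) (hc2 : c = 1 ∨ c = 2)
    (hwt : ∀ t : (ZMod m)ˣ, (S.map (wt p F (t : ZMod m))).sum = 0) : Even S.card := by
  obtain ⟨y, e, he, hbe⟩ := exists_of_wt hn hm hall hp F hF hpF hneg S hwt
  -- `e` is even
  have hee : Even e := by
    by_cases h2 : 2 ∣ m
    · have hc : c = 2 := by
        rcases hc2 with h | h
        · exfalso
          rw [h, one_mul] at hm
          rw [hm] at h2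
          obtain ⟨k, hk⟩ := hodd
          omega
        · exact h
      rw [hc] at hm
      have hmn : m / 2 = n := by omega
      have hf1 := lft_cl (p := p) (fun x : ZMod m => x) rfl (id_gen hp) S
      have hf2 := lft_ee (p := p) (fun x : ZMod m => x) rfl (id_gen hp)
      set f : QA p m →+ ZMod m := lft (fun x : ZMod m => x) rfl (id_gen hp) with hf
      have h1 := congrArg f hbe
      rw [hf1, Multiset.map_id', hsum, gg_apply, map_add, map_sub, hf2, hf2, f.map_zsmul, hf2]
        at h1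
      have h3 := congrArg (ZMod.castHom h2 (ZMod 2)) h1
      rw [map_zero, map_add, map_sub, map_mul, map_natCast, map_zsmul, map_natCast, hmn] at h3
      have hp1 : (p : ZMod 2) = 1 := by
        have h4 : IsUnit (p : ZMod 2) := by
          have := hp.map (ZMod.castHom h2 (ZMod 2))
          rwa [map_natCast] at this
        have h5 : ∀ z : ZMod 2, IsUnit z → z = 1 := by decide
        exact h5 _ h4
      have hn1 : (n : ZMod 2) = 1 := by
        obtain ⟨k, hk⟩ := hodd
        rw [hk]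
        push_cast
        have h2' : (2 : ZMod 2) = 0 := by decide
        rw [h2']
        ring
      rw [hp1, one_mul, sub_self, zero_add, hn1, zsmul_one, eq_comm,
        ZMod.intCast_zmod_eq_zero_iff_dvd] at h3
      exact (even_iff_two_dvd).2 (by exact_mod_cast h3)
    · rw [he h2]
      exact Even.zero
  have hf0 : par (0 : ZMod m) = 0 := if_pos rfl
  have hf1 := lft_cl (p := p) par hf0 (par_gen hp) S
  have hf2 := lft_ee (p := p) par hf0 (par_gen hp)
  set f : QA p m →+ ZMod 2 := lft par hf0 (par_gen hp) with hf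
  have h1 := congrArg f hbe
  rw [hf1, par_sum S h0, map_add, gg_apply, map_sub, hf2, hf2, f.map_zsmul, hf2] at h1
  have h3 : par ((p : ZMod m) * y) = par y := by
    simp only [par]
    by_cases hy0 : y = 0
    · rw [hy0, mul_zero]
    · rw [if_neg hy0, if_neg]
      intro h
      exact hy0 ((hp.mul_right_eq_zero).1 h)
  obtain ⟨e', rfl⟩ := hee
  rw [h3, sub_self, zero_add, add_zsmul, CharTwo.add_self_eq_zero, ZMod.natCast_eq_zero_iff] at h1
  exact (even_iff_two_dvd).2 h1

theorem gen_of_wt {p c n m : ℕ} [NeZero n] [NeZero m] (hn : IsPrimePow n) (hm : m = c * n)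
    (hall : ∀ x : ZMod m, ee p x ∈ genW p c n m)
    (hp : IsUnit (p : ZMod m)) (F : ℕ) (hF : 0 < F) (hpF : (p : ZMod m) ^ F = 1)
    (hneg : ∀ i : ℕ, (p : ZMod n) ^ i ≠ -1) (S : Multiset (ZMod m)) (h0 : (0 : ZMod m) ∉ S)
    (hsum : S.sum = 0) (heven : Even S.card)
    (hwt : ∀ t : (ZMod m)ˣ, (S.map (wt p F (t : ZMod m))).sum = 0) : Gen p m S := by
  obtain ⟨y, e, he, hbe⟩ := exists_of_wt hn hm hall hp F hF hpF hneg S hwt
  have hnm : n ∣ m := Dvd.intro_left c hm.symm
  have hm1 : 1 < m := lt_of_lt_of_le hn.one_lt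
    (Nat.le_of_dvd (Nat.pos_of_ne_zero (NeZero.ne m)) hnm)
  -- parity
  have hpar : e • ee p ((m / 2 : ℕ) : ZMod m) = 0 := by
    by_cases h2 : 2 ∣ m
    · have hf0 : par (0 : ZMod m) = 0 := if_pos rfl
      have hf1 := lft_cl (p := p) par hf0 (par_gen hp) S
      have hf2 := lft_ee (p := p) par hf0 (par_gen hp)
      set f : QA p m →+ ZMod 2 := lft par hf0 (par_gen hp) with hf
      have h1 := congrArg f hbe
      rw [hf1, par_sum S h0, map_add, gg_apply, map_sub, hf2, hf2, f.map_zsmul, hf2] at h1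
      have h3 : par ((p : ZMod m) * y) = par y := by
        simp only [par]
        by_cases hy0 : y = 0
        · rw [hy0, mul_zero]
        · rw [if_neg hy0, if_neg]
          intro h
          exact hy0 ((hp.mul_right_eq_zero).1 h)
      have h4 : par ((m / 2 : ℕ) : ZMod m) = 1 := if_neg (half_ne h2)
      rw [h3, sub_self, zero_add, h4] at h1
      have h5 : (S.card : ZMod 2) = 0 := by
        rw [ZMod.natCast_eq_zero_iff]
        exact heven.two_dvd
      rw [h5, zsmul_one, eq_comm, ZMod.intCast_zmod_eq_zero_iff_dvd] at h1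
      obtain ⟨e', rfl⟩ := h1
      have h6 : (2 : ℤ) • ee p ((m / 2 : ℕ) : ZMod m) = 0 := by
        have h7 := ee_neg (p := p) ((m / 2 : ℕ) : ZMod m)
        rw [half_neg h2, eq_neg_iff_add_eq_zero] at h7
        rw [two_zsmul]
        exact h7
      have h8 : (((2 : ℕ) : ℤ) * e') = e' * 2 := by push_cast; ring
      rw [h8, mul_zsmul, h6, smul_zero]
    · rw [he h2, zero_smul]
  rw [hpar, add_zero] at hbe
  -- the sum
  have hy0 : gg p m y = 0 := by
    have hf1 := lft_cl (p := p) (fun x : ZMod m => x) rfl (id_gen hp) S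
    have hf2 := lft_ee (p := p) (fun x : ZMod m => x) rfl (id_gen hp)
    set f : QA p m →+ ZMod m := lft (fun x : ZMod m => x) rfl (id_gen hp) with hf
    have h1 := congrArg f hbe
    rw [hf1, Multiset.map_id', hsum, gg_apply, map_sub, hf2, hf2] at h1
    have h2 : (p : ZMod m) * y = y := by
      linear_combination h1
    rw [gg_apply, h2, sub_self]
  rw [hy0] at hbe
  exact gen_of_cl hm1 hp h0 hbe

end

end Pool.Agent.Helper9.Fermat
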