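import Pool.Agent.Helper9.Fermat.Val

/-! Stickelberger's theorem on the valuations of Gauss sums. -/

set_option autoImplicit false

namespace Pool.Agent.Helper9.Fermat

open Finset Polynomial

noncomputable section

variable {F : Type} [Field F] [Fintype F]

/-! ### power sums -/

theorem sum_inv_eq (h : 2 < Fintype.card F) : ∑ z : F, z⁻¹ = 0 := by
  have h1 : ∑ z : F, z⁻¹ = ∑ z : F, z ^ 1 := by
    refine Fintype.sum_equiv (Equiv.inv F) _ _ fun x => ?_
    simp
  rw [h1]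
  exact FiniteField.sum_pow_lt_card_sub_one F 1 (by omega)

theorem sum_jac (h : 2 < Fintype.card F) {a : ℕ} (ha : 1 ≤ a) (ha' : a < Fintype.card F - 1) :
    ∑ x : F, (x⁻¹) ^ a * (1 - x)⁻¹ = -(a + 1 : F) := by
  classical
  have h1 : ∑ x : F, (x⁻¹) ^ a * (1 - x)⁻¹ = ∑ y : F, y ^ a * (1 - y⁻¹)⁻¹ := by
    refine Fintype.sum_equiv (Equiv.inv F) _ _ fun x => ?_
    simp
  have h2 : ∀ y : F, y ^ a * (1 - y⁻¹)⁻¹ =
      (∑ j ∈ range (a + 1), y ^ j) + (y - 1)⁻¹ - (if y = 1 then (a + 1 : F) else 0) := by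
    intro y
    by_cases hy0 : y = 0
    · subst hy0
      have h3 : ∑ j ∈ range (a + 1), (0 : F) ^ j = 1 := by
        rw [sum_eq_single_of_mem 0 (by simp) (fun j _ hj => zero_pow hj)]
        simp
      rw [h3, zero_pow (by omega), if_neg (by simp)]
      simp
    by_cases hy1 : y = 1
    · subst hy1
      simp
    · have h3 : y - 1 ≠ 0 := sub_ne_zero.2 hy1
      rw [if_neg hy1, geom_sum_eq hy1]
      have h4 : (1 - y⁻¹)⁻¹ = y / (y - 1) := by
        field_simp
      rw [h4]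
      field_simp
      ring
  have h4 : ∑ y : F, ∑ j ∈ range (a + 1), y ^ j = 0 := by
    rw [sum_comm]
    refine sum_eq_zero fun j hj => ?_
    rw [mem_range] at hj
    exact FiniteField.sum_pow_lt_card_sub_one F j (by omega)
  have h5 : ∑ y : F, (y - 1)⁻¹ = 0 := by
    rw [← sum_inv_eq h, ← (Equiv.subRight (1 : F)).sum_comp (fun z : F => z⁻¹)]
    simp
  rw [h1, sum_congr rfl fun y _ => h2 y, sum_sub_distrib, sum_add_distrib, h4, h5]
  simp

/-! ### the Teichmueller character -/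

/-- a character with a reduction map -/
structure Teich (F : Type) [Field F] [Fintype F] where
  /-- the character -/
  η : MulChar F ℂ
  /-- the ring of values -/
  A : Subring ℂ
  /-- the reduction map -/
  θ : A →+* F
  /-- the valuation ring -/
  V : ValuationSubring ℂ
  /-- the values -/
  r : F → A
  r_eq : ∀ x, (r x : ℂ) = η x
  θ_r : ∀ x, θ (r x) = x⁻¹
  le : ∀ a : A, V.valuation (a : ℂ) ≤ 1
  lt : ∀ a : A, V.valuation (a : ℂ) < 1 ↔ θ a = 0

theorem exists_teich {p f : ℕ} [Fact p.Prime] [CharP F p] (hF : Fintype.card F = p ^ f)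
    (hf : 1 < p ^ f) {ξ : ℂ} (hξ : IsPrimitiveRoot ξ (p ^ f - 1)) {γ : Fˣ}
    (hγ : ∀ x : Fˣ, x ∈ Subgroup.zpowers γ) : ∃ T : Teich F, T.η γ = ξ := by
  classical
  have hcard : Fintype.card Fˣ = p ^ f - 1 := by rw [Fintype.card_units, hF]
  have hord : orderOf γ⁻¹ = p ^ f - 1 := by
    rw [orderOf_inv, orderOf_eq_card_of_forall_mem_zpowers hγ, Nat.card_eq_fintype_card, hcard]
  have hy : IsPrimitiveRoot ((γ⁻¹ : Fˣ) : F) (p ^ f - 1) := by
    rw [IsPrimitiveRoot.coe_units_iff, ← hord]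
    exact IsPrimitiveRoot.orderOf _
  have hgen' : ∀ x : Fˣ, ∃ k : ℕ, x = γ⁻¹ ^ k := by
    intro x
    have h1 : x ∈ Subgroup.zpowers γ⁻¹ := by rw [Subgroup.zpowers_inv]; exact hγ x
    rw [← mem_powers_iff_mem_zpowers] at h1
    obtain ⟨k, hk⟩ := h1
    exact ⟨k, hk.symm⟩
  obtain ⟨A, θ, V, hA, h1, h2, h3⟩ := exists_val hF hf hξ hy (by
    intro x hx
    obtain ⟨k, hk⟩ := hgen' (Units.mk0 x hx)
    exact ⟨k, by rw [← Units.val_pow_eq_pow_val, ← hk]; rfl⟩)
  have hu : IsUnit ξ := hξ.isUnit (by omega)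
  have hζ : hu.unit ∈ rootsOfUnity (Fintype.card Fˣ) ℂ := by
    rw [mem_rootsOfUnity, Units.ext_iff]
    push_cast
    rw [hcard, IsUnit.unit_spec, hξ.pow_eq_one]
  set η : MulChar F ℂ := MulChar.ofRootOfUnity hζ hγ with hη
  have hηγ : η γ = ξ := by
    rw [hη, MulChar.ofRootOfUnity_spec]
    exact hu.unit_spec
  -- values
  have key : ∀ x : F, ∃ a : A, (a : ℂ) = η x ∧ θ a = x⁻¹ := by
    intro x
    by_cases hx : x = 0
    · subst hx
      exact ⟨0, by rw [MulChar.map_zero]; rfl, by simp⟩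
    · obtain ⟨k, hk⟩ := hgen' (Units.mk0 x hx)⁻¹
      have h4 : Units.mk0 x hx = γ ^ k := by
        rw [← inv_inj, hk, inv_pow]
      have h5 : x = ((γ ^ k : Fˣ) : F) := by rw [← h4]; rfl
      refine ⟨⟨ξ, hA⟩ ^ k, ?_, ?_⟩
      · rw [h5]
        push_cast
        rw [map_pow, hηγ]
      · rw [map_pow, h1, h5]
        push_cast
        rw [inv_pow]
  choose r hr using key
  exact ⟨⟨η, A, θ, V, r, fun x => (hr x).1, fun x => (hr x).2, h2, h3⟩, hηγ⟩

namespace Teich

variable (T : Teich F)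

theorem v_root {z : ℂ} {n : ℕ} (hn : 0 < n) (hz : z ^ n = 1) : T.V.valuation z = 1 := by
  have h1 : T.V.valuation z ^ n = 1 := by rw [← map_pow, hz, map_one]
  exact (pow_eq_one_iff_of_nonneg zero_le hn.ne').1 h1

theorem v_char (χ : MulChar F ℂ) {x : F} (hx : x ≠ 0) : T.V.valuation (χ x) = 1 := by
  have h1 : x ^ (Fintype.card F - 1) = 1 := FiniteField.pow_card_sub_one_eq_one x hx
  have hc : 0 < Fintype.card F - 1 := by
    have := Fintype.one_lt_card (α := F)
    omega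
  refine T.v_root hc ?_
  rw [← map_pow, h1, map_one]

/-- the valuation of a Gauss sum does not depend on the additive character -/
theorem v_mulShift (χ : MulChar F ℂ) (ψ : AddChar F ℂ) {c : F} (hc : c ≠ 0) :
    T.V.valuation (gaussSum χ (ψ.mulShift c)) = T.V.valuation (gaussSum χ ψ) := by
  have h1 := gaussSum_mulShift χ ψ (Units.mk0 c hc)
  rw [← h1, map_mul, Units.val_mk0, T.v_char χ hc, one_mul]

theorem exists_shift {ψ ψ' : AddChar F ℂ} (hψ : ψ ≠ 1) (hψ' : ψ' ≠ 1) :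
    ∃ c : F, c ≠ 0 ∧ ψ' = ψ.mulShift c := by
  have h1 : Function.Injective ψ.mulShift :=
    AddChar.to_mulShift_inj_of_isPrimitive (AddChar.IsPrimitive.of_ne_one hψ)
  have h2 : Function.Bijective ψ.mulShift :=
    (Nat.bijective_iff_injective_and_card _).2 ⟨h1, by
      rw [Nat.card_eq_fintype_card, Nat.card_eq_fintype_card]
      exact (AddChar.card_eq (α := F)).symm⟩
  obtain ⟨c, hc⟩ := h2.2 ψ'
  refine ⟨c, ?_, hc.symm⟩
  rintro rfl
  apply hψ'
  rw [← hc, AddChar.mulShift_zero]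

/-- the valuation of the Gauss sum of `η ^ a` -/
def w (ψ : AddChar F ℂ) (a : ℕ) : T.V.ValueGroup := T.V.valuation (gaussSum (T.η ^ a) ψ)

theorem w_frob {p : ℕ} [Fact p.Prime] [CharP F p] {ψ : AddChar F ℂ} (hψ : ψ ≠ 1) (a : ℕ) :
    T.w ψ (p * a) = T.w ψ a := by
  have : ExpChar F p := ExpChar.prime (Fact.out)
  set ψ' : AddChar F ℂ := ψ.compAddMonoidHom ((frobeniusEquiv F p).symm : F →+ F) with hψ'
  have h1 : gaussSum (T.η ^ (p * a)) ψ = gaussSum (T.η ^ a) ψ' := by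
    unfold gaussSum
    rw [← (frobeniusEquiv F p).toEquiv.sum_comp (fun y => (T.η ^ a) y * ψ' y)]
    refine sum_congr rfl fun x _ => ?_
    have h2 : ψ' ((frobeniusEquiv F p) x) = ψ x := by
      simp [hψ']
    have h3 : (T.η ^ (p * a)) x = (T.η ^ a) ((frobeniusEquiv F p) x) := by
      rw [coe_frobeniusEquiv, frobenius_def, map_pow, mul_comm p a, pow_mul,
        MulChar.pow_apply' _ (Fact.out : p.Prime).ne_zero]
    rw [h3]
    congr 1
    exact h2.symm
  have hne : ψ' ≠ 1 := by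
    intro h
    apply hψ
    ext x
    have h2 := DFunLike.congr_fun h ((frobeniusEquiv F p) x)
    simpa [hψ'] using h2
  obtain ⟨c, hc, hcc⟩ := exists_shift hψ hne
  unfold w
  rw [h1, hcc, T.v_mulShift _ _ hc]

theorem jac_val (h : 2 < Fintype.card F) {a : ℕ} (ha : 1 ≤ a) (ha' : a < Fintype.card F - 1)
    {p : ℕ} [CharP F p] (hp : ¬ p ∣ a + 1) :
    T.V.valuation (jacobiSum (T.η ^ a) T.η) = 1 := by
  have h1 : jacobiSum (T.η ^ a) T.η = ((∑ x : F, T.r x ^ a * T.r (1 - x) : T.A) : ℂ) := by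
    unfold jacobiSum
    push_cast
    refine sum_congr rfl fun x _ => ?_
    rw [T.r_eq, T.r_eq, MulChar.pow_apply' _ (by omega)]
  have h2 : T.θ (∑ x : F, T.r x ^ a * T.r (1 - x)) = -(a + 1 : F) := by
    rw [map_sum, ← sum_jac h ha ha']
    refine sum_congr rfl fun x _ => ?_
    rw [map_mul, map_pow, T.θ_r, T.θ_r]
  rw [h1]
  refine le_antisymm (T.le _) ?_
  by_contra hlt
  rw [not_le] at hlt
  rw [T.lt, h2, neg_eq_zero] at hlt
  apply hp
  rw [← CharP.cast_eq_zero_iff F p]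
  push_cast
  exact hlt

end Teich

end

end Pool.Agent.Helper9.Fermat
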