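import Pool.Agent.Helper9.Fermat.Stick

/-! Stickelberger's theorem on the valuations of Gauss sums, continued. -/

set_option autoImplicit false

namespace Pool.Agent.Helper9.Fermat

open Finset Polynomial

noncomputable section

/-! ### arithmetic modulo `p ^ f - 1` -/

theorem mod_step {p f i b : ℕ} (hp : 2 ≤ p) (hi : i < f) (hb : b + 1 < p ^ f - 1)
    (hd : ¬ p ∣ b + 1) : p ^ i * b % (p ^ f - 1) + p ^ i < p ^ f - 1 := by
  obtain ⟨k, rfl⟩ : ∃ k, f = i + (k + 1) := ⟨f - i - 1, by omega⟩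
  have hpi : 0 < p ^ i := by positivity
  have hpk : 0 < p ^ (k + 1) := by positivity
  set P := p ^ (k + 1) with hP
  have hpf : p ^ (i + (k + 1)) = p ^ i * P := by rw [pow_add]
  rw [hpf] at hb ⊢
  set b0 := b % P with hb0
  set b1 := b / P with hb1
  have h1 : P * b1 + b0 = b := Nat.div_add_mod b P
  have hb0lt : b0 < P := Nat.mod_lt _ hpk
  have hpP : p ∣ P := dvd_pow_self p (by omega)
  have h2 : b0 + 1 ≠ P := by
    intro h
    apply hd
    rw [← h1, add_assoc, h]
    exact dvd_add (hpP.mul_right _) hpP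
  have hb1lt : b1 < p ^ i := by
    rw [hb1, Nat.div_lt_iff_lt_mul hpk]
    omega
  have h3 : p ^ i * b = b1 + p ^ i * b0 + (p ^ i * P - 1) * b1 := by
    have h4 : 1 ≤ p ^ i * P := Nat.one_le_iff_ne_zero.2 (by positivity)
    obtain ⟨M, hM⟩ : ∃ M, p ^ i * P = M + 1 := ⟨p ^ i * P - 1, by omega⟩
    rw [← h1]
    have h5 : p ^ i * (P * b1 + b0) = (p ^ i * P) * b1 + p ^ i * b0 := by ring
    rw [h5, hM]
    simp only [Nat.add_sub_cancel]
    ring
  have h6 : b1 + p ^ i * b0 + p ^ i < p ^ i * P - 1 := by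
    have h7 : b0 + 2 ≤ P := by omega
    have h8 : p ^ i * (b0 + 2) ≤ p ^ i * P := Nat.mul_le_mul_left _ h7
    rw [mul_add] at h8
    by_contra hcon
    push Not at hcon
    -- equality forces b = q - 2
    have h9 : b1 = p ^ i - 1 := by omega
    have h10 : p ^ i * b0 + p ^ i * 2 = p ^ i * P := by omega
    have h11 : b0 + 2 = P := by
      have : p ^ i * (b0 + 2) = p ^ i * P := by rw [mul_add, h10]
      exact Nat.eq_of_mul_eq_mul_left hpi this
    have h12 : P * b1 + P = p ^ i * P := by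
      rw [h9]
      have : P * (p ^ i - 1) + P = P * (p ^ i - 1 + 1) := by ring
      rw [this, Nat.sub_add_cancel hpi, mul_comm]
    omega
  rw [h3, Nat.add_mul_mod_self_left, Nat.mod_eq_of_lt (by omega)]
  exact h6

/-- the digit sum, written as a sum over the cyclic shifts -/
def ds (p f a : ℕ) : ℕ := (p - 1) * ∑ i ∈ range f, (p ^ i * a % (p ^ f - 1))

theorem ds_zero (p f : ℕ) : ds p f 0 = 0 := by simp [ds]

theorem ds_frob {p f : ℕ} (hp : 0 < p) (a : ℕ) : ds p f (p * a) = ds p f a := by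
  unfold ds
  congr 1
  rcases f with _ | f
  · simp
  rw [sum_range_succ, sum_range_succ']
  congr 1
  · refine sum_congr rfl fun i _ => ?_
    rw [pow_succ]
    ring_nf
  · have h1 : 0 < p ^ (f + 1) := by positivity
    obtain ⟨M, hM⟩ : ∃ M, p ^ (f + 1) = M + 1 := ⟨p ^ (f + 1) - 1, by omega⟩
    have h2 : p ^ f * (p * a) = p ^ (f + 1) * a := by rw [pow_succ]; ring
    rw [h2, hM]
    simp only [Nat.add_sub_cancel, pow_zero, one_mul]
    rw [add_mul, one_mul, add_comm, Nat.add_mul_mod_self_left]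

theorem ds_succ {p f b : ℕ} (hp : 2 ≤ p) (hb : b + 1 < p ^ f - 1)
    (hd : ¬ p ∣ b + 1) : ds p f (b + 1) = ds p f b + (p ^ f - 1) := by
  unfold ds
  have h1 : ∀ i ∈ range f, p ^ i * (b + 1) % (p ^ f - 1) = p ^ i * b % (p ^ f - 1) + p ^ i := by
    intro i hi
    rw [mem_range] at hi
    have h2 := mod_step hp hi hb hd
    rw [mul_add, mul_one, Nat.add_mod, Nat.mod_eq_of_lt (b := p ^ f - 1) (a := p ^ i) (by omega),
      Nat.mod_eq_of_lt h2]
  rw [sum_congr rfl h1, sum_add_distrib, mul_add]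
  congr 1
  have h3 := Nat.geomSum_eq (m := p) (by omega) f
  rw [h3]
  have h4 : p - 1 ∣ p ^ f - 1 := by
    have := Nat.sub_dvd_pow_sub_pow p 1 f
    rwa [one_pow] at this
  exact Nat.mul_div_cancel' h4

theorem ds_compl {p f a : ℕ} (hp : 2 ≤ p) (ha : 0 < a) (ha' : a < p ^ f - 1) :
    ds p f a + ds p f (p ^ f - 1 - a) = (p - 1) * (f * (p ^ f - 1)) := by
  unfold ds
  rw [← mul_add, ← sum_add_distrib]
  congr 1
  set n := p ^ f - 1 with hn
  have hn0 : 0 < n := by omega
  rw [sum_const_nat (m := n), card_range]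
  intro i hi
  rw [mem_range] at hi
  have hcop : Nat.Coprime n (p ^ i) := by
    apply Nat.Coprime.pow_right
    have h1 : 1 ≤ p ^ f := Nat.one_le_iff_ne_zero.2 (by positivity)
    have h2 : p ∣ p ^ f := dvd_pow_self p (by omega)
    have h3 : p ^ f = n + 1 := by omega
    rw [h3] at h2
    have h4 : Nat.gcd n p ∣ 1 := by
      have h5 : Nat.gcd n p ∣ n + 1 := (Nat.gcd_dvd_right n p).trans h2
      exact (Nat.dvd_add_right (Nat.gcd_dvd_left n p)).1 h5
    exact Nat.dvd_one.1 h4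
  have h5 : ¬ n ∣ p ^ i * a := by
    intro h
    have := hcop.dvd_of_dvd_mul_left h
    exact absurd (Nat.le_of_dvd ha this) (by omega)
  have h6 : 0 < p ^ i * a % n := Nat.pos_of_ne_zero fun h => h5 (Nat.dvd_of_mod_eq_zero h)
  have h7 : p ^ i * a % n < n := Nat.mod_lt _ hn0
  have h8 : (p ^ i * a % n + p ^ i * (n - a) % n) % n = 0 := by
    rw [← Nat.add_mod, ← mul_add, Nat.add_sub_cancel' ha'.le, Nat.mul_mod_left]
  have h9 : p ^ i * (n - a) % n < n := Nat.mod_lt _ hn0
  obtain ⟨c, hc⟩ := Nat.dvd_of_mod_eq_zero h8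
  have h10 : c = 1 := by
    have h11 : 0 < n * c := by omega
    have h12 : n * c < n * 2 := by omega
    have h13 : c < 2 := Nat.lt_of_mul_lt_mul_left h12
    have h14 : 0 < c := by
      rcases Nat.eq_zero_or_pos c with h | h
      · rw [h, mul_zero] at h11; omega
      · exact h
    omega
  rw [hc, h10, mul_one]

namespace Teich

variable {F : Type} [Field F] [Fintype F] (T : Teich F)

theorem w_zero {ψ : AddChar F ℂ} (hψ : ψ ≠ 1) : T.w ψ 0 = 1 := by
  unfold w
  rw [pow_zero, gaussSum_one_left hψ]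
  simp

/-- the character is faithful -/
theorem pow_ne_one {a : ℕ} (ha : 0 < a) (ha' : a < Fintype.card F - 1) : T.η ^ a ≠ 1 := by
  classical
  intro h
  have h1 : ∀ x : F, x ≠ 0 → x ^ a = 1 := by
    intro x hx
    have h2 := DFunLike.congr_fun h x
    rw [MulChar.pow_apply' _ ha.ne', ← T.r_eq, MulChar.one_apply (Ne.isUnit hx)] at h2
    have h3 : T.r x ^ a = 1 := by
      apply Subtype.ext
      push_cast
      exact h2
    have h4 := congrArg T.θ h3
    rw [map_pow, T.θ_r, map_one, inv_pow, inv_eq_one] at h4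
    exact h4
  have h5 : ∑ x : Fˣ, (x : F) ^ a = -1 := by
    rw [sum_congr rfl fun (x : Fˣ) _ => h1 (x : F) x.ne_zero]
    rw [sum_const, card_univ, Fintype.card_units, nsmul_eq_mul, mul_one,
      Nat.cast_sub (Fintype.card_pos)]
    simp
  have h6 := FiniteField.sum_pow_units F a
  rw [h5, if_neg] at h6
  · exact absurd h6 (by simp)
  · intro h7
    exact absurd (Nat.le_of_dvd ha h7) (by omega)

theorem w_succ {p : ℕ} [CharP F p] (h : 2 < Fintype.card F) (ψ : AddChar F ℂ) {a : ℕ}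
    (ha : 1 ≤ a) (ha' : a + 1 < Fintype.card F - 1) (hp : ¬ p ∣ a + 1) :
    T.w ψ (a + 1) = T.w ψ a * T.w ψ 1 := by
  have h1 : T.η ^ a * T.η ≠ 1 := by
    rw [← pow_succ]
    exact T.pow_ne_one (by omega) ha'
  have h2 := jacobiSum_mul_nontrivial h1 ψ
  have h3 := congrArg T.V.valuation h2
  rw [map_mul, map_mul, T.jac_val h ha (by omega) hp, mul_one] at h3
  unfold w
  rw [pow_succ, h3, pow_one]

theorem w_compl {ψ : AddChar F ℂ} (hψ : ψ ≠ 1) {a : ℕ} (ha : 0 < a)
    (ha' : a < Fintype.card F - 1) :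
    T.w ψ a * T.w ψ (Fintype.card F - 1 - a) = T.V.valuation (Fintype.card F : ℂ) := by
  classical
  have h1 := gaussSum_mul_gaussSum_eq_card (T.pow_ne_one ha ha') (AddChar.IsPrimitive.of_ne_one hψ)
  have h2 : (T.η ^ a)⁻¹ = T.η ^ (Fintype.card F - 1 - a) := by
    rw [inv_eq_iff_mul_eq_one, ← pow_add, Nat.add_sub_cancel' ha'.le]
    ext x
    rw [MulChar.pow_apply_coe, ← map_pow, ← Units.val_pow_eq_pow_val, ← Fintype.card_units,
      pow_card_eq_one]
    simp
  rw [h2, AddChar.inv_mulShift] at h1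
  have h3 := congrArg T.V.valuation h1
  rw [map_mul, T.v_mulShift _ _ (by simp)] at h3
  exact h3

/-- Stickelberger's theorem for the valuations of Gauss sums -/
theorem w_eq {p f : ℕ} [Fact p.Prime] [CharP F p] (hF : Fintype.card F = p ^ f)
    (hq : 2 < p ^ f) {ψ : AddChar F ℂ} (hψ : ψ ≠ 1) (a : ℕ) (ha : a < p ^ f - 1) :
    ∃ s : ℕ, T.w ψ a = T.w ψ 1 ^ s ∧ ds p f a = (p ^ f - 1) * s := by
  have hp2 : 2 ≤ p := (Fact.out : p.Prime).two_le
  induction a using Nat.strong_induction_on with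
  | _ a ih =>
    rcases Nat.eq_zero_or_pos a with rfl | ha0
    · exact ⟨0, by rw [T.w_zero hψ, pow_zero], by rw [ds_zero, mul_zero]⟩
    by_cases hpa : p ∣ a
    · obtain ⟨b, rfl⟩ := hpa
      have hb : b < p * b := by
        have : 0 < b := Nat.pos_of_ne_zero (by rintro rfl; simp at ha0)
        nlinarith
      obtain ⟨s, h1, h2⟩ := ih b hb (by omega)
      exact ⟨s, by rw [T.w_frob hψ, h1], by rw [ds_frob (by omega), h2]⟩
    · obtain ⟨b, rfl⟩ : ∃ b, a = b + 1 := ⟨a - 1, by omega⟩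
      obtain ⟨s, h1, h2⟩ := ih b (by omega) (by omega)
      refine ⟨s + 1, ?_, by rw [ds_succ hp2 ha hpa, h2]; ring⟩
      rcases Nat.eq_zero_or_pos b with rfl | hb0
      · rw [T.w_zero hψ] at h1
        rw [pow_succ, ← h1, one_mul]
      · rw [T.w_succ (by rw [hF]; exact hq) ψ hb0 (by rw [hF]; exact ha) hpa, h1, pow_succ]

end Teich

end

end Pool.Agent.Helper9.Fermat
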