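import Mathlib

/-! A valuation of `ℂ` attached to a generator of a finite field. -/

set_option autoImplicit false

namespace Pool.Agent.Helper9.Fermat

open Finset Polynomial

noncomputable section

/-- roots of unity of the required form -/
theorem exists_root {n m : ℕ} [NeZero n] [NeZero m] (hmn : m ∣ n) {z : ℂ}
    (hz : IsPrimitiveRoot z m) (t : (ZMod m)ˣ) :
    ∃ ξ : ℂ, IsPrimitiveRoot ξ n ∧ ξ ^ (n / m * (t : ZMod m).val) = z := by
  obtain ⟨d, hd⟩ := hmn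
  have hm0 : 0 < m := Nat.pos_of_ne_zero (NeZero.ne m)
  have hn0 : n ≠ 0 := NeZero.ne n
  have hnd : n / m = d := by rw [hd]; exact Nat.mul_div_cancel_left d hm0
  have hd0 : 0 < d := by
    rcases Nat.eq_zero_or_pos d with h | h
    · rw [h, mul_zero] at hd
      exact absurd hd hn0
    · exact h
  have h1 : IsPrimitiveRoot (Complex.exp (2 * Real.pi * Complex.I / n)) n :=
    Complex.isPrimitiveRoot_exp n hn0
  set x := Complex.exp (2 * Real.pi * Complex.I / n) with hx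
  have h2 : IsPrimitiveRoot (x ^ d) m := h1.pow (Nat.pos_of_ne_zero hn0) (by rw [hd, mul_comm])
  obtain ⟨k, hk, hkc, hkz⟩ := (h2.isPrimitiveRoot_iff).1 hz
  obtain ⟨U, hU⟩ := ZMod.unitsMap_surjective (n := m) (m := n) ⟨d, hd⟩
    ((ZMod.unitOfCoprime k hkc) * t⁻¹)
  refine ⟨x ^ (U : ZMod n).val, ?_, ?_⟩
  · exact h1.pow_of_coprime _ (ZMod.val_coe_unit_coprime U)
  · rw [hnd, ← pow_mul]
    have h3 : (((U : ZMod n).val * (t : ZMod m).val : ℕ) : ZMod m) = k := by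
      push_cast
      have h4 : (((U : ZMod n).val : ℕ) : ZMod m) = (((ZMod.unitsMap ⟨d, hd⟩ U : (ZMod m)ˣ)) : ZMod m) := by
        rw [ZMod.unitsMap_val, ZMod.natCast_val]
      rw [h4, hU, ZMod.natCast_zmod_val]
      push_cast
      rw [ZMod.coe_unitOfCoprime, mul_assoc, Units.inv_mul, mul_one]
    have h5 : (U : ZMod n).val * (d * (t : ZMod m).val) = d * ((U : ZMod n).val * (t : ZMod m).val) := by
      ring
    rw [h5, pow_mul, ← hkz]
    rw [ZMod.natCast_eq_natCast_iff] at h3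
    exact pow_eq_pow_of_modEq h3 h2.pow_eq_one

variable {F : Type} [Field F] [Fintype F]

/-- The reduction map on `ℤ[ξ]` and the corresponding valuation of `ℂ`. -/
theorem exists_val {p f : ℕ} [Fact p.Prime] [CharP F p] (hF : Fintype.card F = p ^ f)
    (hf : 1 < p ^ f) {ξ : ℂ} (hξ : IsPrimitiveRoot ξ (p ^ f - 1)) {y : F}
    (hy : IsPrimitiveRoot y (p ^ f - 1)) (hgen : ∀ x : F, x ≠ 0 → ∃ k : ℕ, x = y ^ k) :
    ∃ (A : Subring ℂ) (θ : A →+* F) (V : ValuationSubring ℂ) (hA : ξ ∈ A),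
      θ ⟨ξ, hA⟩ = y ∧ (∀ a : A, V.valuation (a : ℂ) ≤ 1) ∧
        ∀ a : A, V.valuation (a : ℂ) < 1 ↔ θ a = 0 := by
  have hn : 0 < p ^ f - 1 := by omega
  have hpF : ((p ^ f - 1 : ℕ) : F) ≠ 0 := by
    have h1 : f ≠ 0 := by rintro rfl; simp at hf
    rw [Nat.cast_sub (by omega)]
    push_cast
    rw [CharP.cast_eq_zero F p, zero_pow h1]
    simp
  have : NeZero ((p ^ f - 1 : ℕ) : F) := ⟨hpF⟩
  have hint : IsIntegral ℤ ξ := hξ.isIntegral hn
  have hmin : minpoly ℤ ξ = cyclotomic (p ^ f - 1) ℤ := (cyclotomic_eq_minpoly hξ hn).symm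
  have hroot : aeval y (minpoly ℤ ξ) = 0 := by
    rw [hmin, aeval_def, eval₂_eq_eval_map, map_cyclotomic]
    exact hy.isRoot_cyclotomic hn
  let e := minpoly.equivAdjoin hint
  let φ : AdjoinRoot (minpoly ℤ ξ) →ₐ[ℤ] F :=
    AdjoinRoot.liftAlgHom (minpoly ℤ ξ) (Algebra.ofId ℤ F) y (by
      rw [← hroot]; rfl)
  let A : Subring ℂ := (Algebra.adjoin ℤ ({ξ} : Set ℂ)).toSubring
  let θ : A →+* F := (φ.comp e.symm.toAlgHom).toRingHom
  have hA : ξ ∈ A := Algebra.subset_adjoin rfl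
  have hθξ : θ ⟨ξ, hA⟩ = y := by
    change φ (e.symm ⟨ξ, hA⟩) = y
    have h1 : e (AdjoinRoot.root _) = ⟨ξ, hA⟩ := by
      refine Subtype.ext ?_
      change ((AdjoinRoot.Minpoly.toAdjoin ℤ ξ (AdjoinRoot.mk (minpoly ℤ ξ) X) :
        Algebra.adjoin ℤ ({ξ} : Set ℂ)) : ℂ) = ξ
      exact AdjoinRoot.Minpoly.coe_toAdjoin_mk_X ..
    rw [← h1, AlgEquiv.symm_apply_apply]
    simp [φ]
  have hI : RingHom.ker θ ≠ ⊤ := RingHom.ker_ne_top θ
  obtain ⟨V, hV1, hV2⟩ := Ideal.image_subset_nonunits_valuationSubring (RingHom.ker θ) hI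
  have hle : ∀ a : A, V.valuation (a : ℂ) ≤ 1 := fun a => (V.valuation_le_one_iff _).2 (hV1 a.2)
  refine ⟨A, θ, V, hA, hθξ, hle, fun a => ⟨fun h => ?_, fun h => ?_⟩⟩
  · by_contra hne
    obtain ⟨k, hk⟩ := hgen (θ a)⁻¹ (inv_ne_zero hne)
    have h1 : θ (a * ⟨ξ, hA⟩ ^ k - 1) = 0 := by
      rw [map_sub, map_mul, map_pow, hθξ, ← hk, map_one, mul_inv_cancel₀ hne, sub_self]
    have h2 : V.valuation (((a * ⟨ξ, hA⟩ ^ k - 1 : A)) : ℂ) < 1 := by
      have h3 := hV2 ⟨_, (RingHom.mem_ker).2 h1, rfl⟩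
      exact (V.mem_nonunits_iff).1 h3
    have h4 : V.valuation (((a * ⟨ξ, hA⟩ ^ k : A)) : ℂ) < 1 := by
      rw [Subring.coe_mul, map_mul]
      exact mul_lt_one_of_lt_of_le h (hle _)
    have h5 : V.valuation (1 : ℂ) < 1 := by
      have h6 : (1 : ℂ) = ((a * ⟨ξ, hA⟩ ^ k : A) : ℂ) - ((a * ⟨ξ, hA⟩ ^ k - 1 : A) : ℂ) := by
        push_cast; ring
      rw [h6]
      exact Valuation.map_sub_lt _ h4 h2
    rw [map_one] at h5
    exact lt_irrefl _ h5
  · have h3 := hV2 ⟨a, (RingHom.mem_ker).2 h, rfl⟩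
    exact (V.mem_nonunits_iff).1 h3

end

end Pool.Agent.Helper9.Fermat
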